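import Pool.Agent.W_89ccdb_h28.Sound

/-!
# Bigelow's braid on five strands, in tensor space
-/

namespace Pool.Agent.W_89ccdb_h28

open Finset

section

variable {R : Type*} [CommRing R] (A : Rˣ)

theorem ev_isZero : ∀ {p : List ℤ}, isZero p = true → ev A p = 0
  | [], _ => rfl
  | c :: p, h => by
    unfold isZero at h
    rw [List.all_cons, Bool.and_eq_true] at h
    have hc : c = 0 := by simpa using h.1
    rw [ev, ev_isZero (p := p) h.2, hc]
    simp

theorem ev_mon (k : ℕ) : ev A (List.replicate k 0 ++ [-1]) = - ((↑A⁻¹ : R) ^ 4) ^ k := by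
  induction k with
  | zero => simp [ev]
  | succ k ih =>
    rw [List.replicate_succ, List.cons_append, ev_shift, ih]
    ring

theorem val_of_offZero {s : ℕ} (a : ℕ) (O : Finset ℕ) : ∀ {v : Vec},
    (v.all fun x => x.1 == s || isZero x.2) = true → val A a O v = ev A (coef s v) • bb A a O s
  | [], _ => by simp [val, coef, ev]
  | (s', p) :: v, h => by
    rw [List.all_cons, Bool.and_eq_true] at h
    have ih := val_of_offZero a O (v := v) h.2
    have e1 : val A a O ((s', p) :: v) = ev A p • bb A a O s' + val A a O v := by simp [val]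
    rw [e1, ih]
    by_cases hs : s' = s
    · subst hs
      simp only [coef, if_pos, ev_padd]
      module
    · have : isZero p = true := by simpa [hs] using h.1
      simp only [coef, if_neg hs, ev_isZero A this]
      module

theorem val_of_isMon {s k : ℕ} (a : ℕ) (O : Finset ℕ) {v : Vec} (h : isMon s k v = true) :
    val A a O v = (((↑A⁻¹ : R) ^ 4) ^ k) • bb A a O s := by
  unfold isMon at h
  rw [Bool.and_eq_true] at h
  rw [val_of_offZero A a O h.1]
  have h2 := ev_isZero A h.2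
  rw [ev_padd, ev_mon] at h2
  congr 1
  linear_combination h2

theorem testBit_inj : ∀ s < 32, ∀ s' < 32, (∀ j < 5, s.testBit j = s'.testBit j) → s = s' := by
  decide

theorem sta_inj {a : ℕ} {O : Finset ℕ} (hO : ∀ i, a ≤ i → i ≤ a + 4 → i ∉ O) {s s' : ℕ}
    (hs : s < 32) (hs' : s' < 32) (h : sta a O s = sta a O s') : s = s' := by
  apply testBit_inj s hs s' hs'
  intro j hj
  have h1 := mem_sta_in hO s hj
  rw [h, mem_sta_in hO s' hj] at h1
  cases h2 : s.testBit j <;> cases h3 : s'.testBit j <;> simp_all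

theorem val_apply {a : ℕ} {O : Finset ℕ} (hO : ∀ i, a ≤ i → i ≤ a + 4 → i ∉ O) {s : ℕ}
    (hs : s < 32) : ∀ {v : Vec}, (∀ x ∈ v, x.1 < 32) →
    val A a O v (sta a O s) = ev A (coef s v) * (A : R) ^ (2 * wtt s)
  | [], _ => by simp [val, coef, ev]
  | (s', p) :: v, hv => by
    have ih := val_apply hO hs (v := v) (fun y hy => hv y (by simp [hy]))
    have hs' : s' < 32 := hv (s', p) (by simp)
    have e1 : val A a O ((s', p) :: v) = ev A p • bb A a O s' + val A a O v := by simp [val]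
    rw [e1, Finsupp.add_apply, ih, bb, Finsupp.smul_apply, Finsupp.smul_apply, dl]
    by_cases h : s' = s
    · subst h
      simp only [coef, if_pos, ev_padd, Finsupp.single_eq_same, smul_eq_mul]
      ring
    · have : sta a O s' ≠ sta a O s := fun hh => h (sta_inj hO hs' hs hh)
      simp only [coef, if_neg h, Finsupp.single_apply, if_neg this, smul_eq_mul]
      ring

theorem wordOf_mem (a : ℕ) : ∀ {w : List (ℕ × Bool)}, (∀ x ∈ w, x.1 < 4) →
    wordOf a w ∈ Wd a (a + 4)
  | [], _ => one_mem _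
  | (i, e) :: w, h => by
    have hi : i < 4 := h (i, e) (by simp)
    have ih := wordOf_mem a (w := w) (fun y hy => h y (by simp [hy]))
    have h1 : FreeGroup.of (a + i) ∈ Wd a (a + 4) := of_mem_Wd (by omega) (by omega)
    unfold wordOf
    cases e
    · exact mul_mem (inv_mem h1) ih
    · exact mul_mem h1 ih

theorem scal_bigW : scal bigW = 244 := by decide +kernel

theorem act_bigW {a s : ℕ} {O : Finset ℕ} (hO : ∀ i, a ≤ i → i ≤ a + 4 → i ∉ O) (hs : s < 32)
    (h : isMon s 61 (run bigW [(s, [1])]) = true) :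
    act A (wordOf a bigW) (dl R (sta a O s)) = dl R (sta a O s) := by
  have h1 := act_run A hO bigW_lt (v := [(s, [1])]) (by simpa using hs)
  rw [val_of_isMon A a O h, scal_bigW] at h1
  have e1 : val A a O [(s, [1])] = bb A a O s := by simp [val, ev]
  have e2 : ((A : R) ^ 244) * ((((↑A⁻¹ : R) ^ 4) ^ 61)) = 1 := by
    have hA : (A : R) * (↑A⁻¹ : R) = 1 := A.mul_inv
    rw [← pow_mul, ← mul_pow, hA, one_pow]
  rw [e1, smul_smul, e2, one_smul, bb, map_smul] at h1
  have h2 := congrArg (fun v => ((↑A⁻¹ : R) ^ (2 * wtt s)) • v) h1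
  simp only [smul_smul, ← mul_pow, A.inv_mul, one_pow, one_smul] at h2
  exact h2

theorem exists_bits {a : ℕ} {S : Finset ℕ} (h : cnt a (a + 4) S ≤ 1) :
    ∃ s ∈ ({0, 1, 2, 4, 8, 16} : Finset ℕ), S = sta a (S \ Icc a (a + 4)) s := by
  have hO : ∀ i, a ≤ i → i ≤ a + 4 → i ∉ S \ Icc a (a + 4) := by
    intro i hi hi' h1
    rw [mem_sdiff, mem_Icc] at h1
    exact h1.2 ⟨hi, hi'⟩
  have ext_lem : ∀ s, (∀ j < 5, (a + j ∈ S ↔ s.testBit j = true)) →
      S = sta a (S \ Icc a (a + 4)) s := by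
    intro s hs
    ext x
    by_cases hx : a ≤ x ∧ x ≤ a + 4
    · obtain ⟨j, rfl⟩ : ∃ j, x = a + j := ⟨x - a, by omega⟩
      rw [mem_sta_in hO s (by omega)]
      exact hs j (by omega)
    · rw [mem_sta_out s hx, mem_sdiff, mem_Icc]
      exact ⟨fun h => ⟨h, hx⟩, fun h => h.1⟩
  unfold cnt at h
  by_cases h0 : S ∩ Icc a (a + 4) = ∅
  · refine ⟨0, by simp, ext_lem 0 ?_⟩
    intro j hj
    simp only [Nat.zero_testBit, Bool.false_eq_true, iff_false]
    intro hj'
    have : a + j ∈ S ∩ Icc a (a + 4) := mem_inter.2 ⟨hj', mem_Icc.2 ⟨by omega, by omega⟩⟩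
    rw [h0] at this
    exact absurd this (Finset.notMem_empty _)
  · obtain ⟨x, hx⟩ := Finset.nonempty_iff_ne_empty.2 h0
    have hx' := hx
    rw [mem_inter, mem_Icc] at hx'
    obtain ⟨i, rfl⟩ : ∃ i, x = a + i := ⟨x - a, by omega⟩
    have hi : i < 5 := by omega
    have huniq : ∀ j < 5, (a + j ∈ S ↔ j = i) := by
      intro j hj
      constructor
      · intro hjS
        have := (card_le_one.1 h) (a + j) (mem_inter.2 ⟨hjS, mem_Icc.2 ⟨by omega, by omega⟩⟩)
          (a + i) hx
        omega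
      · rintro rfl; exact hx'.1
    have hbit : ∀ i < 5, 2 ^ i ∈ ({0, 1, 2, 4, 8, 16} : Finset ℕ) ∧
        ∀ j < 5, (j = i ↔ (2 ^ i).testBit j = true) := by decide
    refine ⟨2 ^ i, (hbit i hi).1, ext_lem _ ?_⟩
    intro j hj
    rw [huniq j hj]
    exact (hbit i hi).2 j hj

theorem tr_bigW (a : ℕ) : Tr A a (a + 4) 1 (wordOf a bigW) := by
  intro S hS
  obtain ⟨s, hs, hSs⟩ := exists_bits hS
  have hO : ∀ i, a ≤ i → i ≤ a + 4 → i ∉ S \ Icc a (a + 4) := by
    intro i hi hi' h1
    rw [mem_sdiff, mem_Icc] at h1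
    exact h1.2 ⟨hi, hi'⟩
  have h1 : s < 32 ∧ isMon s 61 (run bigW [(s, [1])]) = true := by
    simp only [mem_insert, mem_singleton] at hs
    rcases hs with rfl | rfl | rfl | rfl | rfl | rfl
    · exact ⟨by norm_num, run_0⟩
    · exact ⟨by norm_num, run_1⟩
    · exact ⟨by norm_num, run_2⟩
    · exact ⟨by norm_num, run_4⟩
    · exact ⟨by norm_num, run_8⟩
    · exact ⟨by norm_num, run_16⟩
  rw [hSs]
  exact act_bigW A hO h1.1 h1.2

theorem coef_bigW [IsDomain R] (hev : ∀ p : List ℤ, ev A p = 0 → isZero p = true) (a : ℕ) :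
    act A (wordOf a bigW) (dl R (sta a ∅ 6)) (sta a ∅ 9) ≠ 0 := by
  have hO : ∀ i, a ≤ i → i ≤ a + 4 → i ∉ (∅ : Finset ℕ) := fun i _ _ => Finset.notMem_empty i
  have h6 : (6 : ℕ) < 32 := by norm_num
  have h1 := act_run A hO bigW_lt (v := [(6, [1])]) (by simp)
  have e1 : val A a ∅ [(6, [1])] = bb A a ∅ 6 := by simp [val, ev]
  have h2 := val_apply A hO (s := 9) (by norm_num) (v := run bigW [(6, [1])])
    (lt_run bigW_lt (by simp))
  have h3 : ev A (coef 9 (run bigW [(6, [1])])) ≠ 0 := by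
    intro h
    have := hev _ h
    rw [run_6] at this
    exact absurd this (by simp)
  rw [e1, bb, map_smul] at h1
  have h4 := congrArg (fun v => v (sta a ∅ 9)) h1
  simp only [Finsupp.smul_apply, h2, smul_eq_mul] at h4
  intro h5
  rw [h5, mul_zero] at h4
  have hu : (A : R) ≠ 0 := A.ne_zero
  have h6 := mul_ne_zero (pow_ne_zero (scal bigW) hu) (mul_ne_zero h3 (pow_ne_zero (2 * wtt 9) hu))
  exact h6 h4.symm

end

end Pool.Agent.W_89ccdb_h28
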