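import Mathlib

/-!
# Crossingless diagrams and the modules `V^n_{n-2k}`
-/

namespace Pool.Agent.W_89ccdb_h28

open Finset

/-- A crossingless diagram with top endpoints `0, ..., n-1`, with `k` cups (arcs joining two top
endpoints), and with `n - 2k` through lines.  `mate i` is the other end of the cup at `i`, and
`mate i = i` if `i < n` is the end of a through line (and if `i ≥ n`).  A cup never passes over
the end of a through line, and two cups do not cross. -/
@[ext] structure Diagram (n k : ℕ) where
  mate : ℕ → ℕ
  mate_mate : ∀ i, mate (mate i) = i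
  lt_of_mate_ne : ∀ i, mate i ≠ i → i < n
  nested : ∀ i j, i < j → j < mate i → mate j ≠ j ∧ mate j < mate i
  card_cups : ((range n).filter fun i => i < mate i).card = k

variable {n k : ℕ}

/-- the pairing of the top endpoints after stacking the diagram of `e_i` (a cap and a cup at `i`,
`i + 1`) on top of a diagram with pairing `m`: the endpoints `i` and `i + 1` are joined by the new
cup, and the partners of `i` and `i + 1` in `m` are joined with each other (if `i` or `i + 1` was
the end of a through line, then the partner of the other one becomes the end of a through line) -/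
def reMate (m : ℕ → ℕ) (i x : ℕ) : ℕ :=
  if x = i then i + 1
  else if x = i + 1 then i
  else if m x = i then (if m (i + 1) = i + 1 then x else m (i + 1))
  else if m x = i + 1 then (if m i = i then x else m i)
  else m x

theorem reMate_invol (m : ℕ → ℕ) (hm : ∀ i, m (m i) = i) (i x : ℕ)  :
    reMate m i (reMate m i x) = x := by
  have h1 := hm x
  have h2 := hm i
  have h3 := hm (i+1)
  unfold reMate
  split_ifs <;> grind

theorem reMate_lt (m : ℕ → ℕ) (hm : ∀ i, m (m i) = i) (hn : ∀ i, m i ≠ i → i < n) (i x : ℕ)
    (hi : i + 1 < n) (hx : reMate m i x ≠ x) : x < n := by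
  have h1 := hm x
  have h2 := hn x
  unfold reMate at hx
  split_ifs at hx <;> grind

theorem reMate_cases (m : ℕ → ℕ) (hm : ∀ i, m (m i) = i) (i z : ℕ) :
    (z = i ∧ reMate m i z = i + 1) ∨ (z = i + 1 ∧ reMate m i z = i) ∨
    (z ≠ i ∧ z ≠ i + 1 ∧ z = m i ∧ m z = i ∧ m (i + 1) = i + 1 ∧ reMate m i z = z) ∨
    (z ≠ i ∧ z ≠ i + 1 ∧ z = m i ∧ m z = i ∧ m (i + 1) ≠ i + 1 ∧ reMate m i z = m (i + 1)) ∨
    (z ≠ i ∧ z ≠ i + 1 ∧ z = m (i + 1) ∧ m z = i + 1 ∧ m i = i ∧ reMate m i z = z) ∨
    (z ≠ i ∧ z ≠ i + 1 ∧ z = m (i + 1) ∧ m z = i + 1 ∧ m i ≠ i ∧ reMate m i z = m i) ∨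
    (z ≠ i ∧ z ≠ i + 1 ∧ z ≠ m i ∧ z ≠ m (i + 1) ∧ m z ≠ i ∧ m z ≠ i + 1 ∧
      reMate m i z = m z) := by
  have h2 := hm i
  have h3 := hm (i+1)
  unfold reMate
  by_cases a : z = i
  · left; simp [a]
  by_cases b : z = i + 1
  · right; left; simp [b]
  by_cases c : m z = i
  · have hz : z = m i := by rw [← c, hm]
    by_cases d : m (i+1) = i + 1
    · right; right; left
      exact ⟨a, b, hz, c, d, by rw [if_neg a, if_neg b, if_pos c, if_pos d]⟩
    · right; right; right; left
      exact ⟨a, b, hz, c, d, by rw [if_neg a, if_neg b, if_pos c, if_neg d]⟩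
  by_cases c' : m z = i + 1
  · have hz : z = m (i+1) := by rw [← c', hm]
    by_cases d : m i = i
    · right; right; right; right; left
      exact ⟨a, b, hz, c', d, by rw [if_neg a, if_neg b, if_neg c, if_pos c', if_pos d]⟩
    · right; right; right; right; right; left
      exact ⟨a, b, hz, c', d, by rw [if_neg a, if_neg b, if_neg c, if_pos c', if_neg d]⟩
  · right; right; right; right; right; right
    refine ⟨a, b, fun h => c (by rw [h, hm]), fun h => c' (by rw [h, hm]), c, c', ?_⟩
    rw [if_neg a, if_neg b, if_neg c, if_neg c']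

theorem reMate_nested (m : ℕ → ℕ) (hm : ∀ i, m (m i) = i)
    (hc : ∀ i j, i < j → j < m i → m j ≠ j ∧ m j < m i) (i : ℕ)
    (x y : ℕ) (hxy : x < y) (hy : y < reMate m i x) :
    reMate m i y ≠ y ∧ reMate m i y < reMate m i x := by
  have h2 := hm i
  have h3 := hm (i+1)
  have e0 : m i ≠ m (i + 1) := fun h => by
    have := congrArg m h
    rw [h2, h3] at this
    omega
  rcases reMate_cases m hm i x with hx | hx | hx | hx | hx | hx | hx
  · omega
  · omega
  · omega
  · -- x = m i
    obtain ⟨x1, x2, x3, x4, x5, x6⟩ := hx
    have e1 := hc i (i+1)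
    have e2 := hc (m i) (m (i+1))
    rcases reMate_cases m hm i y with hz | hz | hz | hz | hz | hz | hz
    · omega
    · omega
    · omega
    · omega
    · omega
    · omega
    · obtain ⟨z1, z2, z3, z4, z5, z6, z7⟩ := hz
      rw [h2, h3] at e2
      have e3 := hc (m i) y
      rw [h2] at e3
      have e4 := hc (i+1) y
      omega
  · omega
  · -- x = m (i+1)
    obtain ⟨x1, x2, x3, x4, x5, x6⟩ := hx
    rcases reMate_cases m hm i y with hz | hz | hz | hz | hz | hz | hz
    · have e1 := hc (m (i+1)) i
      omega
    · omega
    · omega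
    · omega
    · omega
    · omega
    · obtain ⟨z1, z2, z3, z4, z5, z6, z7⟩ := hz
      have e1 := hc i y
      have e2 := hc (m (i+1)) i
      have e3 := hc (m (i+1)) y
      have e4 := hc y (m i)
      rw [h3] at e2 e3
      rw [h2] at e4
      have e5 := hm y
      have e6 : m y ≠ m i := fun h => z1 (by rw [← e5, h, h2])
      omega
  · obtain ⟨x1, x2, x3, x4, x5, x6, x7⟩ := hx
    rcases reMate_cases m hm i y with hz | hz | hz | hz | hz | hz | hz
    · have e1 := hc x i
      omega
    · omega
    · obtain ⟨z1, z2, z3, z4, z5, z6⟩ := hz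
      have e1 := hc x y
      have e2 := hc i x
      have e3 := hc x (i+1)
      omega
    · obtain ⟨z1, z2, z3, z4, z5, z6⟩ := hz
      have e1 := hc x y
      have e2 := hc i x
      have e3 := hc x (i+1)
      omega
    · obtain ⟨z1, z2, z3, z4, z5, z6⟩ := hz
      have e1 := hc x y
      have e2 := hc (i+1) x
      have e3 := hc x i
      omega
    · obtain ⟨z1, z2, z3, z4, z5, z6⟩ := hz
      have e1 := hc x y
      have e2 := hc (i+1) x
      have e3 := hc x i
      omega
    · have e1 := hc x y
      omega

theorem reMate_card (m : ℕ → ℕ) (hm : ∀ i, m (m i) = i) (hn : ∀ i, m i ≠ i → i < n)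
    (hc : ∀ i j, i < j → j < m i → m j ≠ j ∧ m j < m i) (i : ℕ) (hin : i + 1 < n)
    (hi : ¬ (m i = i ∧ m (i + 1) = i + 1)) :
    ((range n).filter fun x => x < reMate m i x).card = ((range n).filter fun x => x < m x).card := by
  have h2 := hm i
  have h3 := hm (i+1)
  have e0 : m i ≠ m (i + 1) := fun h => by
    have := congrArg m h
    rw [h2, h3] at this
    omega
  have key : ∀ x, x ∉ ({i, i + 1, m i, m (i+1)} : Finset ℕ) → reMate m i x = m x := by
    intro x hx
    simp only [mem_insert, mem_singleton, not_or] at hx
    obtain ⟨h4, h5, h6, h7⟩ := hx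
    unfold reMate
    rw [if_neg h4, if_neg h5, if_neg (fun h => h6 (by rw [← h, hm])),
      if_neg (fun h => h7 (by rw [← h, hm]))]
  have hT : ({i, i + 1, m i, m (i+1)} : Finset ℕ) ⊆ range n := by
    intro x hx
    simp only [mem_insert, mem_singleton] at hx
    rw [mem_range]
    rcases hx with h | h | h | h
    · omega
    · omega
    · subst h
      by_cases h : m i = i
      · omega
      · exact hn _ (by rw [h2]; exact fun h' => h h'.symm)
    · subst h
      by_cases h : m (i+1) = i+1
      · omega
      · exact hn _ (by rw [h3]; exact fun h' => h h'.symm)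
  rw [Finset.card_filter, Finset.card_filter, ← Finset.sum_sdiff hT, ← Finset.sum_sdiff hT]
  congr 1
  · refine Finset.sum_congr rfl fun x hx => ?_
    rw [key x (Finset.mem_sdiff.1 hx).2]
  · have r1 : reMate m i i = i + 1 := by simp [reMate]
    have r2 : reMate m i (i+1) = i := by simp [reMate]
    by_cases hp : m i = i
    · have hq : m (i+1) ≠ i + 1 := fun h => hi ⟨hp, h⟩
      have r3 : reMate m i (m (i+1)) = m (i+1) := by
        unfold reMate
        rw [if_neg (by omega), if_neg hq, if_neg (by omega), if_pos h3, if_pos hp]
      have : ({i, i + 1, m i, m (i+1)} : Finset ℕ) = {i, i+1, m (i+1)} := by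
        rw [hp]; ext x; simp only [mem_insert, mem_singleton]; tauto
      rw [this, sum_insert (by simp; omega), sum_insert (by simp; omega), sum_singleton,
        sum_insert (by simp; omega), sum_insert (by simp; omega), sum_singleton, r1, r2, r3, hp, h3]
      split_ifs <;> omega
    · by_cases hq : m (i+1) = i + 1
      · have r3 : reMate m i (m i) = m i := by
          unfold reMate
          rw [if_neg hp, if_neg (by omega), if_pos h2, if_pos hq]
        have : ({i, i + 1, m i, m (i+1)} : Finset ℕ) = {i, i+1, m i} := by
          rw [hq]; ext x; simp only [mem_insert, mem_singleton]; tauto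
        rw [this, sum_insert (by simp; omega), sum_insert (by simp; omega), sum_singleton,
          sum_insert (by simp; omega), sum_insert (by simp; omega), sum_singleton, r1, r2, r3, hq, h2]
        split_ifs <;> omega
      · by_cases hpq : m i = i + 1
        · have hq' : m (i+1) = i := by rw [← hpq, h2]
          have : ({i, i + 1, m i, m (i+1)} : Finset ℕ) = {i, i+1} := by
            rw [hpq, hq']; ext x; simp only [mem_insert, mem_singleton]; tauto
          rw [this, sum_insert (by simp), sum_singleton,
            sum_insert (by simp), sum_singleton, r1, r2, hpq, hq']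
        · have hq' : m (i+1) ≠ i := fun h => hpq (by rw [h] at h3; exact h3)
          have r3 : reMate m i (m i) = m (i+1) := by
            unfold reMate
            rw [if_neg hp, if_neg hpq, if_pos h2, if_neg hq]
          have r4 : reMate m i (m (i+1)) = m i := by
            unfold reMate
            rw [if_neg hq', if_neg hq, if_neg (by omega), if_pos h3, if_neg hp]
          rw [sum_insert (by simp; omega), sum_insert (by simp; omega), sum_insert (by simp; omega),
            sum_singleton, sum_insert (by simp; omega), sum_insert (by simp; omega),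
            sum_insert (by simp; omega), sum_singleton, r1, r2, r3, r4, h2, h3]
          split_ifs <;> omega

/-- the diagram obtained by stacking `e_i` on top of `d`, if `i` and `i + 1` are not both ends of
through lines (if they are joined by a cup, the closed loop is removed) -/
def Diagram.stack (d : Diagram n k) (i : ℕ) (hi : i + 1 < n)
    (h : ¬ (d.mate i = i ∧ d.mate (i + 1) = i + 1)) : Diagram n k where
  mate := reMate d.mate i
  mate_mate := reMate_invol d.mate d.mate_mate i
  lt_of_mate_ne := fun x hx => reMate_lt d.mate d.mate_mate d.lt_of_mate_ne i x hi hx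
  nested := fun x y => reMate_nested d.mate d.mate_mate d.nested i x y
  card_cups := (reMate_card d.mate d.mate_mate d.lt_of_mate_ne d.nested i hi h).trans d.card_cups

end Pool.Agent.W_89ccdb_h28
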