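import Pool.Agent.W_89ccdb_h28.NonComm

/-!
# Computation of the action of words on five positions, with integer polynomials
-/

namespace Pool.Agent.W_89ccdb_h28

open Finset

/-- sum of two polynomials, given by the lists of their coefficients -/
def padd : List ℤ → List ℤ → List ℤ
  | [], q => q
  | a :: p, [] => a :: p
  | a :: p, b :: q => (a + b) :: padd p q

/-- sparse vectors -/
abbrev Vec := List (ℕ × List ℤ)

/-- add `p` at the state `s` -/
def addTo (s : ℕ) (p : List ℤ) : Vec → Vec
  | [] => [(s, p)]
  | (s', q) :: v => if s = s' then (s', padd q p) :: v else (s', q) :: addTo s p v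

/-- exchange the bits `i` and `i + 1`, if they are different -/
def flip (i s : ℕ) : ℕ := s ^^^ (3 <<< i)

/-- the generator `i`, up to the scalar `A` -/
def stepP (i : ℕ) : Vec → Vec
  | [] => []
  | (s, p) :: v =>
    if s.testBit i then
      if s.testBit (i + 1) then addTo s p (stepP i v)
      else addTo s (padd p (0 :: p.map (fun c => -c))) (addTo (flip i s) (0 :: p) (stepP i v))
    else if s.testBit (i + 1) then addTo (flip i s) p (stepP i v)
    else addTo s p (stepP i v)

/-- the inverse of the generator `i`, up to a scalar -/
def stepN (i : ℕ) : Vec → Vec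
  | [] => []
  | (s, p) :: v =>
    if s.testBit i then
      if s.testBit (i + 1) then addTo s (0 :: p) (stepN i v)
      else addTo (flip i s) (0 :: p) (stepN i v)
    else if s.testBit (i + 1) then
      addTo (flip i s) p (addTo s (padd (0 :: p) (p.map (fun c => -c))) (stepN i v))
    else addTo s (0 :: p) (stepN i v)

/-- run a word -/
def run : List (ℕ × Bool) → Vec → Vec
  | [], v => v
  | (i, e) :: w, v => if e then stepP i (run w v) else stepN i (run w v)

/-- the first braid in Bigelow's commutator, generators numbered from `0` -/
def psi1 : List (ℕ × Bool) :=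
  [(2, false), (1, true), (0, true), (0, true), (1, true), (3, true), (3, true), (3, true),
    (2, true), (1, true)]

def psi2 : List (ℕ × Bool) :=
  [(3, false), (2, true), (1, true), (0, false), (0, false), (1, true), (0, true), (0, true),
    (1, true), (1, true), (0, true), (3, true), (3, true), (3, true), (3, true), (3, true)]

/-- inverse word -/
def winv (w : List (ℕ × Bool)) : List (ℕ × Bool) := (w.map fun x => (x.1, !x.2)).reverse

def bigU : List (ℕ × Bool) := winv psi1 ++ [(3, true)] ++ psi1

def bigV : List (ℕ × Bool) :=
  winv psi2 ++ [(3, true), (2, true), (1, true), (0, true), (0, true), (1, true), (2, true),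
    (3, true)] ++ psi2

/-- Bigelow's braid on five strands -/
def bigW : List (ℕ × Bool) := bigU ++ bigV ++ winv bigU ++ winv bigV

/-- the coefficient at the state `s` -/
def coef (s : ℕ) : Vec → List ℤ
  | [] => []
  | (s', p) :: v => if s' = s then padd p (coef s v) else coef s v

/-- the polynomial is zero -/
def isZero (p : List ℤ) : Bool := p.all fun c => c == 0

/-- the vector is `t ^ k` times the state `s` -/
def isMon (s k : ℕ) (v : Vec) : Bool :=
  (v.all fun x => x.1 == s || isZero x.2) && isZero (padd (coef s v) (List.replicate k 0 ++ [-1]))

set_option maxRecDepth 100000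

theorem run_0 : isMon 0 61 (run bigW [(0, [1])]) = true := by decide +kernel
theorem run_1 : isMon 1 61 (run bigW [(1, [1])]) = true := by decide +kernel
theorem run_2 : isMon 2 61 (run bigW [(2, [1])]) = true := by decide +kernel
theorem run_4 : isMon 4 61 (run bigW [(4, [1])]) = true := by decide +kernel
theorem run_8 : isMon 8 61 (run bigW [(8, [1])]) = true := by decide +kernel
theorem run_16 : isMon 16 61 (run bigW [(16, [1])]) = true := by decide +kernel
theorem run_6 : isZero (coef 9 (run bigW [(6, [1])])) = false := by decide +kernel

theorem bigW_lt : ∀ x ∈ bigW, x.1 < 4 := by decide +kernel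

end Pool.Agent.W_89ccdb_h28
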