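import Pool.Agent.W_89ccdb_h28.Transc

namespace Pool.Agent.W_89ccdb_h28

theorem exists_transcendental_unit : ∃ A : ℂˣ, Transcendental ℚ (A : ℂ) := by
  have h1 : Transcendental ℤ (liouvilleNumber (2 : ℕ)) := transcendental_liouvilleNumber le_rfl
  have h2 : Transcendental ℤ (algebraMap ℝ ℂ (liouvilleNumber (2 : ℕ))) := by
    intro h
    exact h1 ((isAlgebraic_algebraMap_iff (algebraMap ℝ ℂ).injective).1 h)
  have h3 : Transcendental ℚ (algebraMap ℝ ℂ (liouvilleNumber (2 : ℕ))) := by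
    intro h
    exact h2 ((IsFractionRing.isAlgebraic_iff ℤ ℚ ℂ).2 h)
  have h4 : algebraMap ℝ ℂ (liouvilleNumber (2 : ℕ)) ≠ 0 := by
    intro h
    rw [h] at h3
    exact h3 isAlgebraic_zero
  exact ⟨Units.mk0 _ h4, h3⟩

/-- for `k ≥ 1` and `n ≥ 4 k + 1` some nontrivial braid on `n` strands acts trivially on
`V^n_{n-2j}` for every `j ≤ k`, for every value of the parameter `A` -/
theorem exists_braid (n k : ℕ) (hk : 1 ≤ k) (hn : 4 * k + 1 ≤ n) :
    ∃ β : Braid n, β ≠ 1 ∧ ∀ (R : Type) [CommRing R] (A : Rˣ), ∀ j ≤ k, rho A n j β = 1 := by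
  obtain ⟨A, hA⟩ := exists_transcendental_unit
  exact main A (ev_inj A hA) n k hk hn

end Pool.Agent.W_89ccdb_h28
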