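import Pool.Agent.W_89ccdb_h28.Rep

/-!
# Commutators of words acting on two intervals with one common point
-/

namespace Pool.Agent.W_89ccdb_h28

open Finset

open Classical

section

variable {R : Type*} [CommRing R] (A : Rˣ)

/-- the operator of a word -/
noncomputable def act (w : FreeGroup ℕ) : Module.End R (T R) := (freeT A w).val

theorem act_mul (w w' : FreeGroup ℕ) (v : T R) : act A (w * w') v = act A w (act A w' v) := by
  simp [act]

theorem act_one (v : T R) : act A 1 v = v := by simp [act]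

theorem act_inv_act (w : FreeGroup ℕ) (v : T R) : act A w⁻¹ (act A w v) = v := by
  rw [← act_mul, inv_mul_cancel, act_one]

theorem act_act_inv (w : FreeGroup ℕ) (v : T R) : act A w (act A w⁻¹ v) = v := by
  rw [← act_mul, mul_inv_cancel, act_one]

theorem act_of (i : ℕ) (v : T R) :
    act A (FreeGroup.of i) v = (A : R) • v + (↑A⁻¹ : R) • E A i v := by
  simp [act, freeT, sg, mkUnit]

/-- words in the generators acting on the positions `a, ..., b` -/
def Wd (a b : ℕ) : Subgroup (FreeGroup ℕ) :=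
  Subgroup.closure (FreeGroup.of '' {i | a ≤ i ∧ i < b})

theorem Wd_mono {a b a' b' : ℕ} (h : a' ≤ a) (h' : b ≤ b') : Wd a b ≤ Wd a' b' := by
  apply Subgroup.closure_mono
  apply Set.image_mono
  intro i hi
  exact ⟨h.trans hi.1, lt_of_lt_of_le hi.2 h'⟩

theorem of_mem_Wd {a b i : ℕ} (h : a ≤ i) (h' : i < b) : FreeGroup.of i ∈ Wd a b :=
  Subgroup.subset_closure ⟨i, ⟨h, h'⟩, rfl⟩

/-- a property of states which does not change when the entries at `i` and `i + 1` (both in
`[a, b]`) are exchanged -/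
def Stable (a b : ℕ) (P : Finset ℕ → Prop) : Prop :=
  ∀ i S, a ≤ i → i < b → ¬ (i ∈ S ↔ i + 1 ∈ S) → (P (tog i S) ↔ P S)

/-- the part of a vector supported on the states with property `P` -/
noncomputable def flt (P : Finset ℕ → Prop) (v : T R) : T R := v.filter P

theorem flt_pos {P : Finset ℕ → Prop} {v : T R} {S : Finset ℕ} (h : P S) : flt P v S = v S := by
  rw [flt, Finsupp.filter_apply, if_pos h]

theorem flt_neg {P : Finset ℕ → Prop} {v : T R} {S : Finset ℕ} (h : ¬ P S) : flt P v S = 0 := by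
  rw [flt, Finsupp.filter_apply, if_neg h]

theorem filter_act {a b : ℕ} {P : Finset ℕ → Prop} (hP : Stable a b P) {w : FreeGroup ℕ}
    (hw : w ∈ Wd a b) (v : T R) : flt P (act A w v) = act A w (flt P v) := by
  unfold flt
  have hE : ∀ i, a ≤ i → i < b → ∀ v : T R, (E A i v).filter P = E A i (v.filter P) := by
    intro i hi hi' v
    ext S
    rw [E_apply, Finsupp.filter_apply, Finsupp.filter_apply, Finsupp.filter_apply, E_apply]
    by_cases h : i ∈ S ↔ i + 1 ∈ S
    · rw [nd_of_same h, dg_of_same A h]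
      simp
    · have := hP i S hi hi' h
      by_cases hS : P S
      · rw [if_pos hS, if_pos hS, if_pos (this.2 hS)]
      · rw [if_neg hS, if_neg hS, if_neg (fun h => hS (this.1 h))]
        ring
  have hof : ∀ i, a ≤ i → i < b → ∀ v : T R,
      (act A (FreeGroup.of i) v).filter P = act A (FreeGroup.of i) (v.filter P) := by
    intro i hi hi' v
    rw [act_of, act_of, ← hE i hi hi', Finsupp.filter_add, Finsupp.filter_smul,
      Finsupp.filter_smul]
  induction hw using Subgroup.closure_induction generalizing v with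
  | mem x hx =>
    obtain ⟨i, hi, rfl⟩ := hx
    exact hof i hi.1 hi.2 v
  | one => rw [act_one, act_one]
  | mul x y _ _ hx hy => rw [act_mul, act_mul, hx, hy]
  | inv x _ hx =>
    have := hx (act A x⁻¹ v)
    rw [act_act_inv] at this
    rw [this, act_inv_act]

/-- number of entries `1` at the positions `a, ..., b` -/
def cnt (a b : ℕ) (S : Finset ℕ) : ℕ := (S ∩ Icc a b).card

theorem cnt_tog {a b i : ℕ} (hi : a ≤ i) (hi' : i < b) {S : Finset ℕ}
    (h : ¬ (i ∈ S ↔ i + 1 ∈ S)) : cnt a b (tog i S) = cnt a b S := by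
  have key : ∀ S : Finset ℕ, i ∈ S → i + 1 ∉ S → cnt a b (tog i S) = cnt a b S := by
    intro S h1 h2
    unfold cnt
    have : tog i S ∩ Icc a b = insert (i + 1) ((S ∩ Icc a b).erase i) := by
      ext x
      simp only [mem_inter, mem_tog, mem_insert, mem_erase, mem_Icc]
      by_cases hx : x = i
      · subst hx
        simp [h1]
      · by_cases hx' : x = i + 1
        · subst hx'
          simp [h2]
          omega
        · simp [hx, hx']
    rw [this, card_insert_of_notMem, card_erase_of_mem]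
    · have : 0 < (S ∩ Icc a b).card := card_pos.2 ⟨i, mem_inter.2 ⟨h1, mem_Icc.2 ⟨hi, by omega⟩⟩⟩
      omega
    · exact mem_inter.2 ⟨h1, mem_Icc.2 ⟨hi, by omega⟩⟩
    · simp [h2]
  by_cases h1 : i ∈ S
  · exact key S h1 (by tauto)
  · have h2 : i + 1 ∈ S := by tauto
    have := key (tog i S) (mem_tog_self.2 h1) (fun hh => mem_tog_succ.1 hh h2)
    rw [tog_tog] at this
    exact this.symm

theorem stable_cnt {a b a' b' : ℕ} (h : a' ≤ a) (h' : b ≤ b') (Q : ℕ → Prop) :
    Stable a b (fun S => Q (cnt a' b' S)) := by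
  intro i S hi hi' hS
  simp only
  rw [cnt_tog (h.trans hi) (lt_of_lt_of_le hi' h') hS]

theorem tog_sdiff {a b i : ℕ} (hi : a ≤ i) (hi' : i < b) (S : Finset ℕ) :
    tog i S \ Icc a b = S \ Icc a b := by
  ext x
  simp only [mem_sdiff, mem_tog, mem_Icc]
  by_cases hx : x = i ∨ x = i + 1
  · constructor <;> intro h <;> exfalso <;> omega
  · tauto

theorem stable_sdiff {a b : ℕ} (Q : Finset ℕ → Prop) :
    Stable a b (fun S => Q (S \ Icc a b)) := by
  intro i S hi hi' _
  simp only
  rw [tog_sdiff hi hi']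

theorem Stable.and {a b : ℕ} {P Q : Finset ℕ → Prop} (hP : Stable a b P) (hQ : Stable a b Q) :
    Stable a b (fun S => P S ∧ Q S) := fun i S hi hi' h =>
  and_congr (hP i S hi hi' h) (hQ i S hi hi' h)

/-- the word `w` fixes all states with at most `k` entries `1` at the positions `a, ..., b` -/
def Tr (a b k : ℕ) (w : FreeGroup ℕ) : Prop :=
  ∀ S, cnt a b S ≤ k → act A w (dl R S) = dl R S

theorem fix_of_forall {P : Finset ℕ → Prop} {f : Module.End R (T R)}
    (hf : ∀ S, P S → f (dl R S) = dl R S) {v : T R} (hv : flt P v = v) : f v = v := by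
  unfold flt at hv
  have h1 : v = v.sum fun S c => c • dl R S := by
    conv_lhs => rw [← Finsupp.sum_single v]
    refine Finset.sum_congr rfl fun S _ => ?_
    simp [dl]
  have h2 : ∀ S ∈ v.support, P S := by
    intro S hS
    rw [← hv] at hS
    rw [Finsupp.support_filter] at hS
    exact (Finset.mem_filter.1 hS).2
  conv_lhs => rw [h1]
  conv_rhs => rw [h1]
  rw [Finsupp.sum, map_sum]
  refine Finset.sum_congr rfl fun S hS => ?_
  rw [map_smul, hf S (h2 S hS)]

theorem filter_dl {P : Finset ℕ → Prop} {S : Finset ℕ} (h : P S) :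
    flt P (dl R S) = dl R S := by
  unfold dl flt
  rw [Finsupp.filter_single_of_pos _ h]

theorem cnt_add (a b : ℕ) (h : a ≤ b) (S : Finset ℕ) :
    cnt 0 a S + cnt a b S = cnt 0 b S + (if a ∈ S then 1 else 0) := by
  unfold cnt
  have h1 : S ∩ Icc 0 b = (S ∩ Icc 0 a) ∪ (S ∩ Icc a b) := by
    ext x
    simp only [mem_inter, mem_union, mem_Icc]
    constructor
    · rintro ⟨h1, h2⟩
      rcases le_total x a with h3 | h3
      · left; exact ⟨h1, by omega⟩
      · right; exact ⟨h1, by omega⟩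
    · rintro (⟨h1, h2⟩ | ⟨h1, h2⟩) <;> exact ⟨h1, by omega⟩
  have h2 : (S ∩ Icc 0 a) ∩ (S ∩ Icc a b) = if a ∈ S then {a} else ∅ := by
    ext x
    split_ifs with h3
    · simp only [mem_inter, mem_Icc, mem_singleton]
      constructor
      · rintro ⟨⟨_, h4⟩, ⟨_, h5⟩⟩; omega
      · rintro rfl; exact ⟨⟨h3, by omega⟩, ⟨h3, by omega⟩⟩
    · simp only [mem_inter, mem_Icc, Finset.notMem_empty, iff_false]
      rintro ⟨⟨h4, h5⟩, ⟨_, h6⟩⟩
      exact h3 (by have : x = a := by omega
                   rwa [this] at h4)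
  have h3 := card_union_add_card_inter (S ∩ Icc 0 a) (S ∩ Icc a b)
  rw [← h1, h2] at h3
  rw [← h3]
  split_ifs <;> simp

/-- the gluing lemma -/
theorem tr_comm {a b k l : ℕ} (hab : a ≤ b) {x y : FreeGroup ℕ} (hx : x ∈ Wd 0 a)
    (hy : y ∈ Wd a b) (tx : Tr A 0 a k x) (ty : Tr A a b l y) :
    Tr A 0 b (k + l) (x * y * x⁻¹ * y⁻¹) := by
  have hx' : x ∈ Wd 0 b := Wd_mono le_rfl hab hx
  have hy' : y ∈ Wd 0 b := Wd_mono (Nat.zero_le _) le_rfl hy
  have key : ∀ S, cnt 0 b S ≤ k + l →
      act A (y⁻¹ * x⁻¹ * y * x) (dl R S) = dl R S := by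
    intro S hS
    have hc := cnt_add a b hab S
    have e1 : act A x (act A y (dl R S)) = act A y (act A x (dl R S)) := by
      by_cases h1 : cnt 0 a S ≤ k
      · by_cases h2 : cnt a b S ≤ l
        · rw [tx S h1, ty S h2, tx S h1]
        · rw [tx S h1]
          apply fix_of_forall (P := fun S' => cnt 0 b S' = cnt 0 b S ∧ cnt a b S' = cnt a b S)
          · rintro S' ⟨h3, h4⟩
            apply tx
            have := cnt_add a b hab S'
            split_ifs at this <;> omega
          · rw [filter_act A _ hy, filter_dl ⟨rfl, rfl⟩]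
            exact (stable_cnt (Nat.zero_le _) le_rfl (fun c => c = cnt 0 b S)).and
              (stable_cnt le_rfl le_rfl (fun c => c = cnt a b S))
      · have h2 : cnt a b S ≤ l := by split_ifs at hc <;> omega
        rw [ty S h2]
        symm
        apply fix_of_forall (P := fun S' => cnt 0 b S' = cnt 0 b S ∧ cnt 0 a S' = cnt 0 a S)
        · rintro S' ⟨h3, h4⟩
          apply ty
          have := cnt_add a b hab S'
          split_ifs at this <;> omega
        · rw [filter_act A _ hx, filter_dl ⟨rfl, rfl⟩]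
          exact (stable_cnt le_rfl hab (fun c => c = cnt 0 b S)).and
            (stable_cnt le_rfl le_rfl (fun c => c = cnt 0 a S))
    rw [act_mul, act_mul, act_mul, ← e1, act_inv_act, act_inv_act]
  intro S hS
  have h1 : act A (y⁻¹ * x⁻¹ * y * x) (act A (x⁻¹ * y⁻¹) (dl R S)) =
      act A (x⁻¹ * y⁻¹) (dl R S) := by
    apply fix_of_forall (P := fun S' => cnt 0 b S' ≤ k + l) key
    rw [filter_act A (stable_cnt le_rfl le_rfl (fun c => c ≤ k + l)) (w := x⁻¹ * y⁻¹)
      (mul_mem (inv_mem hx') (inv_mem hy')), filter_dl hS]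
  have h2 : act A (x * y) (act A (y⁻¹ * x⁻¹ * y * x) (act A (x⁻¹ * y⁻¹) (dl R S))) = dl R S := by
    rw [← act_mul, ← act_mul]
    have : x * y * (y⁻¹ * x⁻¹ * y * x) * (x⁻¹ * y⁻¹) = 1 := by group
    rw [this, act_one]
  rw [h1, ← act_mul] at h2
  rw [show x * y * x⁻¹ * y⁻¹ = x * y * (x⁻¹ * y⁻¹) by group]
  exact h2

theorem tr_conj {a b k : ℕ} {x g : FreeGroup ℕ} (hg : g ∈ Wd a b) (tx : Tr A a b k x) :
    Tr A a b k (g⁻¹ * x * g) := by
  intro S hS
  have h1 : act A x (act A g (dl R S)) = act A g (dl R S) := by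
    apply fix_of_forall (P := fun S' => cnt a b S' ≤ k) tx
    rw [filter_act A (stable_cnt le_rfl le_rfl (fun c => c ≤ k)) hg, filter_dl hS]
  rw [act_mul, act_mul, h1, act_inv_act]

theorem exists_conj {a k : ℕ} {Q : FreeGroup ℕ → Prop}
    (hQ : ∀ g ∈ Wd 0 a, ∀ x, Q x → Q (g⁻¹ * x * g)) :
    ∀ (d p : ℕ), p + d = a → ∀ (x : FreeGroup ℕ), x ∈ Wd 0 a →
    Q x → ∀ S, p ∈ S → (∀ q, p < q → q ≤ a → q ∉ S) → cnt 0 a S = k + 1 →
    act A x (dl R S) ≠ dl R S →
    ∃ x' ∈ Wd 0 a, Q x' ∧ ∃ S', a ∈ S' ∧ cnt 0 a S' = k + 1 ∧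
      act A x' (dl R S') ≠ dl R S' := by
  intro d
  induction d with
  | zero =>
    intro p hp x hx tx S hpS _ hS hne
    have : p = a := by omega
    subst this
    exact ⟨x, hx, tx, S, hpS, hS, hne⟩
  | succ d ih =>
    intro p hp x hx tx S hpS hq hS hne
    have hp1 : p + 1 ∉ S := hq (p + 1) (by omega) (by omega)
    have hg : FreeGroup.of p ∈ Wd 0 a := of_mem_Wd (Nat.zero_le _) (by omega)
    have t1 : p ∉ tog p S := fun hh => mem_tog_self.1 hh hpS
    have t2 : p + 1 ∈ tog p S := mem_tog_succ.2 hp1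
    have h1 : act A (FreeGroup.of p) (dl R (tog p S)) = (↑A⁻¹ : R) • dl R S := by
      rw [act_of, E_01 A t1 t2, tog_tog]
      have hA : (A : R) * (↑A⁻¹ : R) = 1 := A.mul_inv
      generalize (↑A⁻¹ : R) = a' at *
      generalize (A : R) = a at *
      linear_combination (norm := module) (-(a * hA)) • (dl R (tog p S))
    refine ih (p + 1) (by omega) ((FreeGroup.of p)⁻¹ * x * FreeGroup.of p)
      (mul_mem (mul_mem (inv_mem hg) hx) hg) (hQ _ hg _ tx) (tog p S) t2 ?_ ?_ ?_
    · intro q hq1 hq2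
      rw [mem_tog_of_ne (by omega) (by omega)]
      exact hq q (by omega) hq2
    · rw [cnt_tog (Nat.zero_le _) (by omega) (by tauto), hS]
    · intro h2
      apply hne
      rw [act_mul, act_mul, h1, map_smul, map_smul] at h2
      have h3 := congrArg (fun v => (A : R) • act A (FreeGroup.of p) v) h2
      simp only [map_smul, act_act_inv, h1, smul_smul, A.mul_inv, one_smul] at h3
      exact h3

theorem exists_conj' {a k : ℕ} {Q : FreeGroup ℕ → Prop}
    (hQ : ∀ g ∈ Wd 0 a, ∀ x, Q x → Q (g⁻¹ * x * g)) {x : FreeGroup ℕ} (hx : x ∈ Wd 0 a)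
    (tx : Q x) (h : ∃ S, cnt 0 a S = k + 1 ∧ act A x (dl R S) ≠ dl R S) :
    ∃ x' ∈ Wd 0 a, Q x' ∧ ∃ S', a ∈ S' ∧ cnt 0 a S' = k + 1 ∧
      act A x' (dl R S') ≠ dl R S' := by
  obtain ⟨S, hS, hne⟩ := h
  have h1 : (S ∩ Icc 0 a).Nonempty := by
    rw [← card_pos]
    unfold cnt at hS
    omega
  have h2 := (S ∩ Icc 0 a).max'_mem h1
  set p := (S ∩ Icc 0 a).max' h1 with hp
  rw [mem_inter, mem_Icc] at h2
  refine exists_conj A hQ (a - p) p (by omega) x hx tx S h2.1 ?_ hS hne
  intro q hq1 hq2 hqS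
  have := (S ∩ Icc 0 a).le_max' q (mem_inter.2 ⟨hqS, mem_Icc.2 ⟨Nat.zero_le _, hq2⟩⟩)
  omega

end

end Pool.Agent.W_89ccdb_h28
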