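import Pool.Agent.W_89ccdb_h28.Inter

/-!
# The embedding of the diagram modules in tensor space is injective
-/

namespace Pool.Agent.W_89ccdb_h28

open Finset

variable {n k : ℕ} {R : Type*} [CommRing R] (A : Rˣ)

/-- the right endpoints of the cups -/
def Rt (d : Diagram n k) : Finset ℕ := (range n).filter fun x => d.mate x < x

theorem mem_Rt {d : Diagram n k} {x : ℕ} : x ∈ Rt d ↔ d.mate x < x := by
  unfold Rt
  rw [mem_filter, mem_range]
  exact ⟨fun h => h.2, fun h => ⟨d.lt_of_mate_ne x (by omega), h⟩⟩

/-- `S` contains exactly one end of every cup and no end of a through line -/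
def Compat (m : ℕ → ℕ) (S : Finset ℕ) : Prop :=
  ∀ x, (m x = x → x ∉ S) ∧ (m x ≠ x → (x ∈ S ↔ m x ∉ S))

theorem compat_of_wt {d : Diagram n k} {S : Finset ℕ} (h : wt A d.mate n S ≠ 0) :
    Compat d.mate S := by
  have hS : S ⊆ range n := by
    by_contra hS
    exact h (by rw [wt, if_neg hS])
  rw [wt, if_pos hS] at h
  have hf : ∀ x ∈ range n, fac A d.mate S x ≠ 0 := fun x hx h0 => h (Finset.prod_eq_zero hx h0)
  have hl : ∀ x, x < d.mate x → (x ∈ S ↔ d.mate x ∉ S) := by
    intro x hx
    have h1 := hf x (mem_range.2 (d.lt_of_mate_ne x (by omega)))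
    rw [fac_left A rfl hx, cc] at h1
    by_contra h2
    exact h1 (by rw [if_neg (by tauto), if_neg (by tauto)])
  intro x
  refine ⟨fun hx hxS => ?_, fun hx => ?_⟩
  · have h1 := hf x (hS hxS)
    rw [fac_fix A hx, if_pos hxS] at h1
    exact h1 rfl
  · rcases lt_or_gt_of_ne hx with h1 | h1
    · have := hl (d.mate x) (by rw [d.mate_mate]; exact h1)
      rw [d.mate_mate] at this
      tauto
    · exact hl x h1

theorem sum_max_le {d : Diagram n k} {S : Finset ℕ} (h : Compat d.mate S) :
    ∑ x ∈ S, max x (d.mate x) ≤ ∑ x ∈ Rt d, x := by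
  have hinj : Set.InjOn (fun x => max x (d.mate x)) (S : Set ℕ) := by
    intro x hx y hy hxy
    simp only at hxy
    have hx' := h x
    have hy' := h y
    have e1 := d.mate_mate x
    have e2 := d.mate_mate y
    have hx2 : x ∈ S := hx
    have hy2 : y ∈ S := hy
    by_contra hne
    rcases max_choice x (d.mate x) with h3 | h3 <;> rcases max_choice y (d.mate y) with h4 | h4 <;>
      rw [h3, h4] at hxy
    · exact hne hxy
    · have : d.mate y ≠ y := fun h5 => hne (by rw [hxy, h5])
      exact (hy'.2 this).1 hy2 (by rw [← hxy]; exact hx2)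
    · have : d.mate x ≠ x := fun h5 => hne (by rw [← hxy, h5])
      exact (hx'.2 this).1 hx2 (by rw [hxy]; exact hy2)
    · exact hne (by rw [← e1, hxy, e2])
  have h2 : ∑ x ∈ S, max x (d.mate x) = ∑ y ∈ S.image (fun x => max x (d.mate x)), y :=
    (Finset.sum_image (f := fun y => y) hinj).symm
  rw [h2]
  refine Finset.sum_le_sum_of_subset ?_
  intro y hy
  rw [mem_image] at hy
  obtain ⟨x, hx, rfl⟩ := hy
  have hx' := h x
  have hne : d.mate x ≠ x := fun h5 => hx'.1 h5 hx
  rw [mem_Rt]
  rcases max_choice x (d.mate x) with h3 | h3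
  · rw [h3]
    have := le_max_right x (d.mate x)
    omega
  · rw [h3, d.mate_mate]
    have := le_max_left x (d.mate x)
    omega

theorem eq_Rt_of_compat {d : Diagram n k} {S : Finset ℕ} (h : Compat d.mate S)
    (hs : ∑ x ∈ Rt d, x ≤ ∑ x ∈ S, x) : S = Rt d := by
  have h1 : ∑ x ∈ S, x ≤ ∑ x ∈ S, max x (d.mate x) :=
    Finset.sum_le_sum fun x _ => le_max_left _ _
  have h2 := sum_max_le h
  have h3 : ∑ x ∈ S, x = ∑ x ∈ S, max x (d.mate x) := le_antisymm h1 (h2.trans hs)
  rw [Finset.sum_eq_sum_iff_of_le (fun x _ => le_max_left _ _)] at h3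
  have h4 : ∀ x ∈ S, d.mate x < x := by
    intro x hx
    have h5 := h3 x hx
    have h6 := le_max_right x (d.mate x)
    have h7 : d.mate x ≠ x := fun h8 => (h x).1 h8 hx
    omega
  ext y
  rw [mem_Rt]
  refine ⟨h4 y, fun hy => ?_⟩
  by_contra hyS
  have h5 : d.mate y ∈ S := by
    by_contra h6
    exact hyS (((h y).2 (by omega)).2 h6)
  have h6 := h4 _ h5
  rw [d.mate_mate] at h6
  omega

theorem isUnit_wt_Rt (d : Diagram n k) : IsUnit (wt A d.mate n (Rt d)) := by
  have hS : Rt d ⊆ range n := Finset.filter_subset _ _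
  rw [wt, if_pos hS]
  refine IsUnit.prod_iff.2 fun x _ => ?_
  rcases lt_trichotomy (d.mate x) x with h | h | h
  · rw [fac_right A rfl h]
    exact isUnit_one
  · rw [fac_fix A h, if_neg (fun h' => by rw [mem_Rt] at h'; omega)]
    exact isUnit_one
  · rw [fac_left A rfl h, cc, if_pos]
    · exact A.isUnit
    · rw [mem_Rt, mem_Rt, d.mate_mate]
      omega

theorem Rt_inj {d d' : Diagram n k} (h : Rt d = Rt d') : d = d' := by
  have hR : ∀ x, d.mate x < x ↔ d'.mate x < x := fun x => by rw [← mem_Rt, ← mem_Rt, h]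
  have key : ∀ j, d.mate j < j → d.mate j = d'.mate j := by
    intro j
    induction j using Nat.strong_induction_on with
    | _ j ih =>
      intro hj
      have hj' := (hR j).1 hj
      by_contra hne
      rcases lt_or_gt_of_ne hne with hlt | hlt
      · -- i = d'.mate j lies strictly between d.mate j and j
        have h1 := d.nested (d.mate j) (d'.mate j) hlt (by rw [d.mate_mate]; exact hj')
        rw [d.mate_mate] at h1
        rcases lt_or_gt_of_ne h1.1 with h2 | h2
        · have h3 := (hR _).1 h2
          rw [d'.mate_mate] at h3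
          omega
        · have h3 := ih (d.mate (d'.mate j)) h1.2 (by rw [d.mate_mate]; exact h2)
          rw [d.mate_mate] at h3
          have h4 := congrArg d'.mate h3
          rw [d'.mate_mate, d'.mate_mate] at h4
          omega
      · have h1 := d'.nested (d'.mate j) (d.mate j) hlt (by rw [d'.mate_mate]; exact hj)
        rw [d'.mate_mate] at h1
        rcases lt_or_gt_of_ne h1.1 with h2 | h2
        · have h3 := (hR _).2 h2
          rw [d.mate_mate] at h3
          omega
        · have h3 := ih (d'.mate (d.mate j)) h1.2 ((hR _).2 (by rw [d'.mate_mate]; exact h2))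
          rw [d'.mate_mate] at h3
          have h4 := congrArg d.mate h3
          rw [d.mate_mate, d.mate_mate] at h4
          omega
  have key' : ∀ j, d'.mate j < j → d.mate j = d'.mate j := fun j hj => key j ((hR j).2 hj)
  ext x
  rcases lt_trichotomy (d.mate x) x with h1 | h1 | h1
  · exact key x h1
  · rcases lt_trichotomy (d'.mate x) x with h2 | h2 | h2
    · exact key' x h2
    · rw [h1, h2]
    · have h3 := key' (d'.mate x) (by rw [d'.mate_mate]; exact h2)
      rw [d'.mate_mate] at h3
      have h4 := congrArg d.mate h3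
      rw [d.mate_mate] at h4
      exact h4.symm
  · have h3 := key (d.mate x) (by rw [d.mate_mate]; exact h1)
    rw [d.mate_mate] at h3
    have h4 := congrArg d'.mate h3
    rw [d'.mate_mate] at h4
    exact h4.symm

theorem phi_injective : Function.Injective (phi A : V R n k →ₗ[R] T R) := by
  rw [← LinearMap.ker_eq_bot, LinearMap.ker_eq_bot']
  intro v hv
  by_contra hne
  have hsupp : v.support.Nonempty := Finsupp.support_nonempty_iff.2 hne
  obtain ⟨d, hd, hmax⟩ := Finset.exists_max_image v.support (fun d => ∑ x ∈ Rt d, x) hsupp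
  have h1 : phi A v (Rt d) = v d * wt A d.mate n (Rt d) := by
    have : phi A v = v.sum fun d c => c • phib A d := by
      rw [phi, Finsupp.linearCombination_apply]
    rw [this, Finsupp.sum_apply, Finsupp.sum, Finset.sum_eq_single d]
    · simp [phib_apply]
    · intro d' hd' hne'
      simp only [Finsupp.smul_apply, smul_eq_mul, phib_apply]
      by_cases h0 : wt A d'.mate n (Rt d) = 0
      · rw [h0, mul_zero]
      · exfalso
        have h2 := eq_Rt_of_compat (compat_of_wt A h0) (hmax d' hd')
        exact hne' (Rt_inj h2.symm)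
    · intro h; exact absurd hd h
  rw [hv, Finsupp.zero_apply] at h1
  have h2 := (isUnit_wt_Rt A d).mul_left_eq_zero.1 h1.symm
  exact (Finsupp.mem_support_iff.1 hd) h2

end Pool.Agent.W_89ccdb_h28
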