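import Mathlib

/-!
# The action of the Temperley-Lieb generators on tensor space

`T R` is free on the finite subsets of `ℕ`; the subset `S` stands for the infinite tensor
`... ⊗ e_{s(i)} ⊗ e_{s(i+1)} ⊗ ...` with `s(i) = 1` if `i ∈ S` and `s(i) = 0` otherwise.
-/

namespace Pool.Agent.W_89ccdb_h28

open Finset

section alg

variable {R : Type*} [CommRing R] (A : Rˣ)

/-- the value of a closed loop -/
def tau : R := -(A : R) ^ 2 - (↑A⁻¹ : R) ^ 2

variable {B : Type*} [Ring B] [Algebra R B]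

theorem mkUnit_val_inv (e : B) (h : e * e = tau A • e) :
    ((A : R) • 1 + (↑A⁻¹ : R) • e) * ((↑A⁻¹ : R) • 1 + (A : R) • e) = 1 := by
  have hA : (A : R) * (↑A⁻¹ : R) = 1 := A.mul_inv
  simp only [mul_add, add_mul, smul_mul_smul_comm, h, one_mul, mul_one, smul_smul, tau]
  rw [show (↑A⁻¹ : R) * (A : R) = 1 from by rw [mul_comm]; exact hA, hA, one_smul]
  rw [show (1 : B) + (↑A⁻¹ * ↑A⁻¹ : R) • e + ((↑A * ↑A : R) • e
    + (1 * (-(A : R) ^ 2 - (↑A⁻¹ : R) ^ 2)) • e) = 1 + ((↑A⁻¹ * ↑A⁻¹ : R) + (↑A * ↑A : R)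
    + (1 * (-(A : R) ^ 2 - (↑A⁻¹ : R) ^ 2))) • e by module]
  rw [show (↑A⁻¹ * ↑A⁻¹ : R) + (↑A * ↑A : R) + (1 * (-(A : R) ^ 2 - (↑A⁻¹ : R) ^ 2)) = 0 by ring,
    zero_smul, add_zero]

theorem mkUnit_inv_val (e : B) (h : e * e = tau A • e) :
    ((↑A⁻¹ : R) • 1 + (A : R) • e) * ((A : R) • 1 + (↑A⁻¹ : R) • e) = 1 := by
  have hA : (A : R) * (↑A⁻¹ : R) = 1 := A.mul_inv
  simp only [mul_add, add_mul, smul_mul_smul_comm, h, one_mul, mul_one, smul_smul, tau]
  rw [show (↑A⁻¹ : R) * (A : R) = 1 from by rw [mul_comm]; exact hA, hA, one_smul]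
  rw [show (1 : B) + (↑A * ↑A : R) • e + ((↑A⁻¹ * ↑A⁻¹ : R) • e
    + (1 * (-(A : R) ^ 2 - (↑A⁻¹ : R) ^ 2)) • e) = 1 + ((↑A⁻¹ * ↑A⁻¹ : R) + (↑A * ↑A : R)
    + (1 * (-(A : R) ^ 2 - (↑A⁻¹ : R) ^ 2))) • e by module]
  rw [show (↑A⁻¹ * ↑A⁻¹ : R) + (↑A * ↑A : R) + (1 * (-(A : R) ^ 2 - (↑A⁻¹ : R) ^ 2)) = 0 by ring,
    zero_smul, add_zero]

/-- the unit `A + A⁻¹ e` with inverse `A⁻¹ + A e` -/
def mkUnit (e : B) (h : e * e = tau A • e) : Bˣ where
  val := (A : R) • 1 + (↑A⁻¹ : R) • e
  inv := (↑A⁻¹ : R) • 1 + (A : R) • e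
  val_inv := mkUnit_val_inv A e h
  inv_val := mkUnit_inv_val A e h

theorem mkUnit_comm (e f : B) (he : e * e = tau A • e) (hf : f * f = tau A • f)
    (h : e * f = f * e) : mkUnit A e he * mkUnit A f hf = mkUnit A f hf * mkUnit A e he := by
  ext
  simp only [mkUnit, Units.val_mul, mul_add, add_mul, smul_mul_smul_comm, one_mul, mul_one, h]
  rw [mul_comm (A : R) (↑A⁻¹ : R)]
  abel

theorem braid_aux (e f : B) (he : e * e = tau A • e) (hef : e * f * e = e) :
    ((A : R) • 1 + (↑A⁻¹ : R) • e) * ((A : R) • 1 + (↑A⁻¹ : R) • f) *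
      ((A : R) • 1 + (↑A⁻¹ : R) • e) =
    ((A : R) ^ 3) • (1 : B) + (A : R) • (e + f) + (↑A⁻¹ : R) • (e * f + f * e) := by
  have hA : (A : R) * (↑A⁻¹ : R) = 1 := A.mul_inv
  simp only [tau] at he
  generalize (↑A⁻¹ : R) = a' at *
  generalize (A : R) = a at *
  have e1 : (a • (1 : B) + a' • e) * (a • 1 + a' • f) * (a • 1 + a' • e) =
      (a ^ 3) • (1 : B) + (2 * a ^ 2 * a') • e + (a ^ 2 * a') • f
        + (a * a' ^ 2) • (e * f) + (a * a' ^ 2) • (f * e)
        + (a * a' ^ 2) • (e * e) + (a' ^ 3) • (e * f * e) := by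
    simp only [mul_add, add_mul, smul_mul_assoc, mul_smul_comm, smul_smul, smul_add, one_mul,
      mul_one]
    module
  rw [e1, hef, he]
  have c1 : a ^ 2 * a' = a := by linear_combination a * hA
  have c2 : a * a' ^ 2 = a' := by linear_combination a' * hA
  have c3 : 2 * a ^ 2 * a' + a * a' ^ 2 * (-a ^ 2 - a' ^ 2) + a' ^ 3 = a := by
    linear_combination (-a * (a * a' - 1) - a' ^ 3) * hA
  have c4 : (a ^ 3) • (1 : B) + (2 * a ^ 2 * a') • e + (a ^ 2 * a') • f
        + (a * a' ^ 2) • (e * f) + (a * a' ^ 2) • (f * e)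
        + (a * a' ^ 2) • ((-a ^ 2 - a' ^ 2) • e) + (a' ^ 3) • e =
      (a ^ 3) • (1 : B) + (2 * a ^ 2 * a' + a * a' ^ 2 * (-a ^ 2 - a' ^ 2) + a' ^ 3) • e
        + (a ^ 2 * a') • f + (a * a' ^ 2) • (e * f) + (a * a' ^ 2) • (f * e) := by module
  rw [c4, c3, c1, c2]
  module

theorem mkUnit_braid (e f : B) (he : e * e = tau A • e) (hf : f * f = tau A • f)
    (hef : e * f * e = e) (hfe : f * e * f = f) :
    mkUnit A e he * mkUnit A f hf * mkUnit A e he = mkUnit A f hf * mkUnit A e he * mkUnit A f hf := by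
  ext
  simp only [mkUnit, Units.val_mul]
  rw [braid_aux A e f he hef, braid_aux A f e hf hfe, add_comm f e, add_comm (f * e)]

end alg

section tensor

variable (R : Type*) [CommRing R]

/-- the tensor space -/
abbrev T := Finset ℕ →₀ R

/-- exchange the entries at `i` and `i + 1` if they are different -/
def tog (i : ℕ) (S : Finset ℕ) : Finset ℕ := symmDiff S {i, i + 1}

theorem mem_tog {i x : ℕ} {S : Finset ℕ} : x ∈ tog i S ↔ ¬ (x ∈ S ↔ (x = i ∨ x = i + 1)) := by
  simp only [tog, mem_symmDiff, mem_insert, mem_singleton]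
  tauto

theorem tog_tog (i : ℕ) (S : Finset ℕ) : tog i (tog i S) = S := by
  unfold tog
  rw [symmDiff_assoc, symmDiff_self]
  simp

theorem tog_comm (i j : ℕ) (S : Finset ℕ) : tog i (tog j S) = tog j (tog i S) := by
  unfold tog
  rw [symmDiff_right_comm]

variable {R} (A : Rˣ)

/-- the value of `e_i` on the basis vector of `S` -/
noncomputable def Eb (i : ℕ) (S : Finset ℕ) : T R :=
  if i ∈ S ∧ i + 1 ∉ S then Finsupp.single (tog i S) 1 - Finsupp.single S ((↑A⁻¹ : R) ^ 2)
  else if i ∉ S ∧ i + 1 ∈ S then Finsupp.single (tog i S) 1 - Finsupp.single S ((A : R) ^ 2)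
  else 0

/-- the operator `e_i` on tensor space -/
noncomputable def E (i : ℕ) : Module.End R (T R) := Finsupp.linearCombination R (Eb A i)

/-- basis vectors -/
noncomputable def dl (R : Type*) [CommRing R] (S : Finset ℕ) : T R := Finsupp.single S 1

theorem ext_dl {V : Type*} [AddCommGroup V] [Module R V] {f g : T R →ₗ[R] V}
    (h : ∀ S, f (dl R S) = g (dl R S)) : f = g := by
  apply Finsupp.lhom_ext'
  intro S
  apply LinearMap.ext_ring
  simpa [dl] using h S

theorem E_dl (i : ℕ) (S : Finset ℕ) : E A i (dl R S) = Eb A i S := by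
  simp [E, dl]

theorem E_10 {i : ℕ} {S : Finset ℕ} (h : i ∈ S) (h' : i + 1 ∉ S) :
    E A i (dl R S) = dl R (tog i S) - ((↑A⁻¹ : R) ^ 2) • dl R S := by
  rw [E_dl, Eb, if_pos ⟨h, h'⟩, dl, dl, Finsupp.smul_single, smul_eq_mul, mul_one]

theorem E_01 {i : ℕ} {S : Finset ℕ} (h : i ∉ S) (h' : i + 1 ∈ S) :
    E A i (dl R S) = dl R (tog i S) - ((A : R) ^ 2) • dl R S := by
  rw [E_dl, Eb, if_neg (fun hh => h hh.1), if_pos ⟨h, h'⟩, dl, dl, Finsupp.smul_single,
    smul_eq_mul, mul_one]

theorem E_eq {i : ℕ} {S : Finset ℕ} (h : i ∈ S ↔ i + 1 ∈ S) : E A i (dl R S) = 0 := by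
  rw [E_dl, Eb, if_neg (by tauto), if_neg (by tauto)]

theorem mem_tog_self {i : ℕ} {S : Finset ℕ} : i ∈ tog i S ↔ i ∉ S := by rw [mem_tog]; simp

theorem mem_tog_succ {i : ℕ} {S : Finset ℕ} : i + 1 ∈ tog i S ↔ i + 1 ∉ S := by
  rw [mem_tog]; simp

theorem mem_tog_of_ne {i x : ℕ} {S : Finset ℕ} (h : x ≠ i) (h' : x ≠ i + 1) :
    x ∈ tog i S ↔ x ∈ S := by rw [mem_tog]; simp [h, h']

theorem hA2 : (A : R) ^ 2 * (↑A⁻¹ : R) ^ 2 = 1 := by
  rw [← mul_pow, A.mul_inv, one_pow]

theorem E_sq (i : ℕ) : E A i * E A i = tau A • E A i := by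
  apply ext_dl
  intro S
  rw [Module.End.mul_apply, LinearMap.smul_apply]
  have hA := hA2 A
  by_cases h : i ∈ S <;> by_cases h' : i + 1 ∈ S
  · rw [E_eq A (iff_of_true h h'), map_zero, smul_zero]
  · rw [E_10 A h h', map_sub, map_smul, E_10 A h h',
      E_01 A (fun hh => mem_tog_self.1 hh h) (mem_tog_succ.2 h'), tog_tog, tau]
    generalize (↑A⁻¹ : R) = a' at *
    generalize (A : R) = a at *
    linear_combination (norm := module) (-hA) • (dl R S)
  · rw [E_01 A h h', map_sub, map_smul, E_01 A h h',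
      E_10 A (mem_tog_self.2 h) (fun hh => mem_tog_succ.1 hh h'), tog_tog, tau]
    generalize (↑A⁻¹ : R) = a' at *
    generalize (A : R) = a at *
    linear_combination (norm := module) (-hA) • (dl R S)
  · rw [E_eq A (iff_of_false h h'), map_zero, smul_zero]

theorem E_tl1 (i : ℕ) : E A i * E A (i + 1) * E A i = E A i := by
  apply ext_dl
  intro S
  rw [Module.End.mul_apply, Module.End.mul_apply]
  have hA := hA2 A
  have m3 : i + 1 + 1 ∈ tog i S ↔ i + 1 + 1 ∈ S := mem_tog_of_ne (by omega) (by omega)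
  have m4 : i ∈ tog (i+1) S ↔ i ∈ S := mem_tog_of_ne (by omega) (by omega)
  have m6 : i ∈ tog (i+1) (tog i S) ↔ i ∈ tog i S := mem_tog_of_ne (by omega) (by omega)
  by_cases h : i ∈ S <;> by_cases h' : i + 1 ∈ S
  · rw [E_eq A (iff_of_true h h'), map_zero, map_zero]
  · have t1 : i ∉ tog i S := fun hh => mem_tog_self.1 hh h
    have t2 : i + 1 ∈ tog i S := mem_tog_succ.2 h'
    by_cases h2 : i + 1 + 1 ∈ S
    · rw [E_10 A h h', map_sub, map_smul, E_01 A h' h2,
        E_eq A (i := i + 1) (S := tog i S) (iff_of_true t2 (m3.2 h2)),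
        map_sub, map_smul, map_sub, map_smul, E_10 A h h',
        E_eq A (i := i) (S := tog (i+1) S) (iff_of_true (m4.2 h) (mem_tog_self.2 h')), map_zero]
      generalize (↑A⁻¹ : R) = a' at *
      generalize (A : R) = a at *
      linear_combination (norm := module) hA • (dl R (tog i S)) - (a' ^ 2 * hA) • (dl R S)
    · rw [E_10 A h h', map_sub, map_smul, E_10 A t2 (fun hh => h2 (m3.1 hh)),
        E_eq A (i := i + 1) (S := S) (iff_of_false h' h2),
        map_sub, map_sub, map_smul, map_smul, E_01 A t1 t2,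
        E_eq A (i := i) (S := tog (i+1) (tog i S)) (iff_of_false (fun hh => t1 (m6.1 hh))
          (fun hh => mem_tog_self.1 hh t2)), map_zero, tog_tog]
      generalize (↑A⁻¹ : R) = a' at *
      generalize (A : R) = a at *
      linear_combination (norm := module) hA • (dl R (tog i S))
  · have t1 : i ∈ tog i S := mem_tog_self.2 h
    have t2 : i + 1 ∉ tog i S := fun hh => mem_tog_succ.1 hh h'
    by_cases h2 : i + 1 + 1 ∈ S
    · rw [E_01 A h h', map_sub, map_smul, E_01 A t2 (m3.2 h2),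
        E_eq A (i := i + 1) (S := S) (iff_of_true h' h2),
        map_sub, map_sub, map_smul, map_smul, E_10 A t1 t2,
        E_eq A (i := i) (S := tog (i+1) (tog i S)) (iff_of_true (m6.2 t1)
          (mem_tog_self.2 t2)), map_zero, tog_tog]
      generalize (↑A⁻¹ : R) = a' at *
      generalize (A : R) = a at *
      linear_combination (norm := module) hA • (dl R (tog i S))
    · rw [E_01 A h h', map_sub, map_smul, E_10 A h' h2,
        E_eq A (i := i + 1) (S := tog i S) (iff_of_false t2 (fun hh => h2 (m3.1 hh))),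
        map_sub, map_smul, map_sub, map_smul, E_01 A h h',
        E_eq A (i := i) (S := tog (i+1) S) (iff_of_false (fun hh => h (m4.1 hh))
          (fun hh => mem_tog_self.1 hh h')), map_zero]
      generalize (↑A⁻¹ : R) = a' at *
      generalize (A : R) = a at *
      linear_combination (norm := module) hA • (dl R (tog i S)) - (a ^ 2 * hA) • (dl R S)
  · rw [E_eq A (iff_of_false h h'), map_zero, map_zero]

theorem E_tl2 (i : ℕ) : E A (i + 1) * E A i * E A (i + 1) = E A (i + 1) := by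
  apply ext_dl
  intro S
  rw [Module.End.mul_apply, Module.End.mul_apply]
  have hA := hA2 A
  have m3 : i ∈ tog (i+1) S ↔ i ∈ S := mem_tog_of_ne (by omega) (by omega)
  have m4 : i + 1 + 1 ∈ tog i S ↔ i + 1 + 1 ∈ S := mem_tog_of_ne (by omega) (by omega)
  have m6 : i + 1 + 1 ∈ tog i (tog (i+1) S) ↔ i + 1 + 1 ∈ tog (i+1) S :=
    mem_tog_of_ne (by omega) (by omega)
  by_cases h' : i + 1 ∈ S <;> by_cases h2 : i + 1 + 1 ∈ S
  · rw [E_eq A (iff_of_true h' h2), map_zero, map_zero]
  · have t1 : i + 1 ∉ tog (i + 1) S := fun hh => mem_tog_self.1 hh h'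
    have t2 : i + 1 + 1 ∈ tog (i + 1) S := mem_tog_succ.2 h2
    by_cases h : i ∈ S
    · rw [E_10 A h' h2, map_sub, map_smul, E_eq A (i := i) (S := S) (iff_of_true h h'),
        E_10 A (m3.2 h) t1, map_sub, map_sub, map_smul, map_smul, E_01 A t1 t2,
        E_eq A (i := i + 1) (S := tog i (tog (i+1) S)) (iff_of_true (mem_tog_succ.2 t1)
          (m6.2 t2)), map_zero, tog_tog]
      generalize (↑A⁻¹ : R) = a' at *
      generalize (A : R) = a at *
      linear_combination (norm := module) hA • (dl R (tog (i+1) S))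
    · rw [E_10 A h' h2, map_sub, map_smul, E_01 A h h',
        E_eq A (i := i) (S := tog (i+1) S) (iff_of_false (fun hh => h (m3.1 hh)) t1),
        map_sub, map_smul, map_sub, map_smul, E_10 A h' h2,
        E_eq A (i := i + 1) (S := tog i S) (iff_of_false (fun hh => mem_tog_succ.1 hh h')
          (fun hh => h2 (m4.1 hh))), map_zero]
      generalize (↑A⁻¹ : R) = a' at *
      generalize (A : R) = a at *
      linear_combination (norm := module) hA • (dl R (tog (i+1) S)) - (a' ^ 2 * hA) • (dl R S)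
  · have t1 : i + 1 ∈ tog (i + 1) S := mem_tog_self.2 h'
    have t2 : i + 1 + 1 ∉ tog (i + 1) S := fun hh => mem_tog_succ.1 hh h2
    by_cases h : i ∈ S
    · rw [E_01 A h' h2, map_sub, map_smul, E_10 A h h',
        E_eq A (i := i) (S := tog (i+1) S) (iff_of_true (m3.2 h) t1),
        map_sub, map_smul, map_sub, map_smul, E_01 A h' h2,
        E_eq A (i := i + 1) (S := tog i S) (iff_of_true (mem_tog_succ.2 h')
          (m4.2 h2)), map_zero]
      generalize (↑A⁻¹ : R) = a' at *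
      generalize (A : R) = a at *
      linear_combination (norm := module) hA • (dl R (tog (i+1) S)) - (a ^ 2 * hA) • (dl R S)
    · rw [E_01 A h' h2, map_sub, map_smul, E_eq A (i := i) (S := S) (iff_of_false h h'),
        E_01 A (fun hh => h (m3.1 hh)) t1, map_sub, map_sub, map_smul, map_smul, E_10 A t1 t2,
        E_eq A (i := i + 1) (S := tog i (tog (i+1) S)) (iff_of_false
          (fun hh => mem_tog_succ.1 hh t1) (fun hh => t2 (m6.1 hh))), map_zero, tog_tog]
      generalize (↑A⁻¹ : R) = a' at *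
      generalize (A : R) = a at *
      linear_combination (norm := module) hA • (dl R (tog (i+1) S))
  · rw [E_eq A (iff_of_false h' h2), map_zero, map_zero]

/-- the coefficient of `E_i` on the diagonal -/
def dg (i : ℕ) (S : Finset ℕ) : R :=
  if i ∈ S ∧ i + 1 ∉ S then (↑A⁻¹ : R) ^ 2 else if i ∉ S ∧ i + 1 ∈ S then (A : R) ^ 2 else 0

/-- `1` if `i` and `i + 1` have different entries, `0` otherwise -/
def nd (R : Type*) [CommRing R] (i : ℕ) (S : Finset ℕ) : R := if i ∈ S ↔ i + 1 ∈ S then 0 else 1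

theorem E_form (i : ℕ) (S : Finset ℕ) :
    E A i (dl R S) = nd R i S • dl R (tog i S) - dg A i S • dl R S := by
  by_cases h : i ∈ S <;> by_cases h' : i + 1 ∈ S
  · simp [E_eq A (iff_of_true h h'), nd, dg, h, h']
  · simp [E_10 A h h', nd, dg, h, h']
  · simp [E_01 A h h', nd, dg, h, h']
  · simp [E_eq A (iff_of_false h h'), nd, dg, h, h']

theorem E_far {i j : ℕ} (hij : i + 1 < j) : E A i * E A j = E A j * E A i := by
  apply ext_dl
  intro S
  rw [Module.End.mul_apply, Module.End.mul_apply]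
  have m1 : i ∈ tog j S ↔ i ∈ S := mem_tog_of_ne (by omega) (by omega)
  have m2 : i + 1 ∈ tog j S ↔ i + 1 ∈ S := mem_tog_of_ne (by omega) (by omega)
  have m3 : j ∈ tog i S ↔ j ∈ S := mem_tog_of_ne (by omega) (by omega)
  have m4 : j + 1 ∈ tog i S ↔ j + 1 ∈ S := mem_tog_of_ne (by omega) (by omega)
  have n1 : nd R i (tog j S) = nd R i S := by simp only [nd, m1, m2]
  have n2 : nd R j (tog i S) = nd R j S := by simp only [nd, m3, m4]
  have n3 : dg A i (tog j S) = dg A i S := by simp only [dg, m1, m2]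
  have n4 : dg A j (tog i S) = dg A j S := by simp only [dg, m3, m4]
  simp only [E_form, map_sub, map_smul, n1, n2, n3, n4, tog_comm i j S]
  module

theorem E_apply (i : ℕ) (v : T R) (S : Finset ℕ) :
    E A i v S = nd R i S * v (tog i S) - dg A i S * v S := by
  have h : ∀ U : Finset ℕ, nd R i (tog i U) = nd R i U := by
    intro U
    simp only [nd, mem_tog_self, mem_tog_succ]
    congr 1
    simp only [eq_iff_iff]
    tauto
  have : (Finsupp.lapply S : T R →ₗ[R] R) ∘ₗ E A i =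
      nd R i S • (Finsupp.lapply (tog i S) : T R →ₗ[R] R) - dg A i S • Finsupp.lapply S := by
    apply ext_dl
    intro U
    rw [LinearMap.comp_apply, E_form]
    simp only [map_sub, map_smul, LinearMap.sub_apply,
      LinearMap.smul_apply, Finsupp.lapply_apply, smul_eq_mul, dl, Finsupp.single_apply]
    by_cases hU : U = S
    · subst hU
      simp
      by_cases h3 : tog i U = U
      · exfalso
        have := mem_tog_self (i := i) (S := U)
        rw [h3] at this
        tauto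
      · simp [h3, Ne.symm h3]
    · by_cases hT : tog i U = S
      · subst hT
        simp [tog_tog, h, hU]
      · have h4 : ¬ U = tog i S := fun h5 => hT (by rw [h5, tog_tog])
        simp [hU, hT, h4]
  have := congrArg (fun f => f v) this
  simpa using this

end tensor

end Pool.Agent.W_89ccdb_h28
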