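import Pool.Agent.W_89ccdb_h28.Diagrams
import Pool.Agent.W_89ccdb_h28.Tensor

/-!
# The Temperley-Lieb action on the diagram modules, and the embedding in tensor space
-/

namespace Pool.Agent.W_89ccdb_h28

open Finset

section weight

variable {n : ℕ} {R : Type*} [CommRing R] (A : Rˣ)

/-- the coordinates of the vector of a cup -/
def cc (x y : Prop) [Decidable x] [Decidable y] : R :=
  if ¬ x ∧ y then (A : R) else if x ∧ ¬ y then - (↑A⁻¹ : R) else 0

/-- the local factor at `x` -/
def fac (m : ℕ → ℕ) (S : Finset ℕ) (x : ℕ) : R :=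
  if m x = x then (if x ∈ S then 0 else 1)
  else if x < m x then cc A (x ∈ S) (m x ∈ S) else 1

theorem fac_fix {m : ℕ → ℕ} {S : Finset ℕ} {x : ℕ} (h : m x = x) :
    fac A m S x = if x ∈ S then 0 else 1 := by rw [fac, if_pos h]

theorem fac_left {m : ℕ → ℕ} {S : Finset ℕ} {x y : ℕ} (h : m x = y) (h' : x < y) :
    fac A m S x = cc A (x ∈ S) (y ∈ S) := by
  subst h
  rw [fac, if_neg (by omega), if_pos h']

theorem fac_right {m : ℕ → ℕ} {S : Finset ℕ} {x y : ℕ} (h : m x = y) (h' : y < x) :
    fac A m S x = 1 := by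
  subst h
  rw [fac, if_neg (by omega), if_neg (by omega)]

/-- the coefficient at `S` of the vector of the diagram with pairing `m` -/
def wt (m : ℕ → ℕ) (n : ℕ) (S : Finset ℕ) : R :=
  if S ⊆ range n then ∏ x ∈ range n, fac A m S x else 0

theorem tog_subset {i n : ℕ} (hi : i + 1 < n) (S : Finset ℕ) :
    tog i S ⊆ range n ↔ S ⊆ range n := by
  have key : ∀ S : Finset ℕ, S ⊆ range n → tog i S ⊆ range n := by
    intro S hS x hx
    rw [mem_tog] at hx
    rw [mem_range]
    by_cases h : x = i ∨ x = i + 1
    · omega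
    · have : x ∈ S := by tauto
      exact mem_range.1 (hS this)
  exact ⟨fun h => by simpa [tog_tog] using key _ h, key S⟩

theorem dg_of_same {i : ℕ} {S : Finset ℕ} (h : i ∈ S ↔ i + 1 ∈ S) : dg A i S = 0 := by
  unfold dg
  rw [if_neg (by tauto), if_neg (by tauto)]

theorem nd_of_same {i : ℕ} {S : Finset ℕ} (h : i ∈ S ↔ i + 1 ∈ S) : nd R i S = 0 := by
  unfold nd
  rw [if_pos h]

theorem reMate_eq {m : ℕ → ℕ} (hm : ∀ i, m (m i) = i) {i x : ℕ}
    (hx : x ∉ ({i, i + 1, m i, m (i+1)} : Finset ℕ)) : reMate m i x = m x := by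
  simp only [mem_insert, mem_singleton, not_or] at hx
  obtain ⟨h4, h5, h6, h7⟩ := hx
  unfold reMate
  rw [if_neg h4, if_neg h5, if_neg (fun h => h6 (by rw [← h, hm])),
    if_neg (fun h => h7 (by rw [← h, hm]))]

theorem local_id (m : ℕ → ℕ) (hm : ∀ i, m (m i) = i)
    (hc : ∀ i j, i < j → j < m i → m j ≠ j ∧ m j < m i) (i : ℕ)
    (hi : ¬ (m i = i ∧ m (i + 1) = i + 1)) (hii : m i ≠ i + 1) (S : Finset ℕ) :
    ∏ x ∈ ({i, i + 1, m i, m (i+1)} : Finset ℕ), fac A (reMate m i) S x =
      nd R i S * ∏ x ∈ ({i, i + 1, m i, m (i+1)} : Finset ℕ), fac A m (tog i S) x -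
      dg A i S * ∏ x ∈ ({i, i + 1, m i, m (i+1)} : Finset ℕ), fac A m S x := by
  have h2 := hm i
  have h3 := hm (i+1)
  have hA : (A : R) * (↑A⁻¹ : R) = 1 := A.mul_inv
  have e0 : m i ≠ m (i + 1) := fun h => by
    have := congrArg m h
    rw [h2, h3] at this
    omega
  have hqi : m (i + 1) ≠ i := fun h => hii (by rw [h] at h3; exact h3)
  have r1 : reMate m i i = i + 1 := by simp [reMate]
  have r2 : reMate m i (i+1) = i := by simp [reMate]
  have s1 : i ∈ tog i S ↔ i ∉ S := mem_tog_self
  have s2 : i + 1 ∈ tog i S ↔ i + 1 ∉ S := mem_tog_succ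
  by_cases hp : m i = i
  · have hq : m (i+1) ≠ i + 1 := fun h => hi ⟨hp, h⟩
    have hq' : i + 1 < m (i + 1) := by
      by_contra h
      have := hc (m (i+1)) i (by omega) (by omega)
      exact this.1 hp
    have r3 : reMate m i (m (i+1)) = m (i+1) := by
      unfold reMate
      rw [if_neg (by omega), if_neg hq, if_neg (by omega), if_pos h3, if_pos hp]
    have hT : ({i, i + 1, m i, m (i+1)} : Finset ℕ) = {i, i+1, m (i+1)} := by
      rw [hp]; ext x; simp only [mem_insert, mem_singleton]; tauto
    have s3 : m (i + 1) ∈ tog i S ↔ m (i + 1) ∈ S := mem_tog_of_ne (by omega) (by omega)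
    rw [hT]
    simp only [prod_insert (show i ∉ ({i + 1, m (i+1)} : Finset ℕ) by simp; omega),
      prod_insert (show i + 1 ∉ ({m (i+1)} : Finset ℕ) by simp; omega), prod_singleton]
    rw [fac_left A r1 (by omega), fac_right A r2 (by omega), fac_fix A r3, fac_fix A hp,
      fac_left A (rfl : m (i+1) = m (i+1)) hq', fac_right A h3 hq', fac_fix A hp,
      fac_left A (rfl : m (i+1) = m (i+1)) hq', fac_right A h3 hq']
    simp only [s1, s2, s3, cc, nd, dg]
    by_cases c1 : i ∈ S <;> by_cases c2 : i + 1 ∈ S <;> by_cases c3 : m (i + 1) ∈ S <;>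
      simp [c1, c2, c3]
    all_goals grind
  · by_cases hq : m (i+1) = i + 1
    · have hp' : m i < i := by
        by_contra h
        have := hc i (i+1) (by omega) (by omega)
        exact this.1 hq
      have r3 : reMate m i (m i) = m i := by
        unfold reMate
        rw [if_neg hp, if_neg (by omega), if_pos h2, if_pos hq]
      have hT : ({i, i + 1, m i, m (i+1)} : Finset ℕ) = {i, i+1, m i} := by
        rw [hq]; ext x; simp only [mem_insert, mem_singleton]; tauto
      have s3 : m i ∈ tog i S ↔ m i ∈ S := mem_tog_of_ne (by omega) (by omega)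
      rw [hT]
      simp only [prod_insert (show i ∉ ({i + 1, m i} : Finset ℕ) by simp; omega),
        prod_insert (show i + 1 ∉ ({m i} : Finset ℕ) by simp; omega), prod_singleton]
      rw [fac_left A r1 (by omega), fac_right A r2 (by omega), fac_fix A r3,
        fac_right A (rfl : m i = m i) hp', fac_fix A hq, fac_left A h2 hp',
        fac_right A (rfl : m i = m i) hp', fac_fix A hq, fac_left A h2 hp']
      simp only [s1, s2, s3, cc, nd, dg]
      by_cases c1 : i ∈ S <;> by_cases c2 : i + 1 ∈ S <;> by_cases c3 : m i ∈ S <;>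
        simp [c1, c2, c3]
      all_goals grind
    · have r3 : reMate m i (m i) = m (i+1) := by
        unfold reMate
        rw [if_neg hp, if_neg hii, if_pos h2, if_neg hq]
      have r4 : reMate m i (m (i+1)) = m i := by
        unfold reMate
        rw [if_neg hqi, if_neg hq, if_neg (by omega), if_pos h3, if_neg hp]
      have s3 : m i ∈ tog i S ↔ m i ∈ S := mem_tog_of_ne (by omega) (by omega)
      have s4 : m (i + 1) ∈ tog i S ↔ m (i + 1) ∈ S := mem_tog_of_ne (by omega) (by omega)
      simp only [prod_insert (show i ∉ ({i + 1, m i, m (i+1)} : Finset ℕ) by simp; omega),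
        prod_insert (show i + 1 ∉ ({m i, m (i+1)} : Finset ℕ) by simp; omega),
        prod_insert (show m i ∉ ({m (i+1)} : Finset ℕ) by simp; omega), prod_singleton]
      have o1 := hc i (i+1)
      have o2 := hc (m (i+1)) i
      rw [h3] at o2
      rcases lt_or_ge (m i) i with hpi | hpi
      · rcases lt_or_ge (m (i+1)) i with hqi' | hqi'
        · -- both to the left, nested
          have hqp : m (i+1) < m i := by
            by_contra h
            have := hc (m i) (m (i+1))
            rw [h2, h3] at this
            omega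
          rw [fac_left A r1 (by omega), fac_right A r2 (by omega), fac_right A r3 hqp,
            fac_left A r4 hqp,
            fac_right A (rfl : m i = m i) (by omega), fac_right A (rfl : m (i+1) = m (i+1)) (by omega),
            fac_left A h2 (by omega), fac_left A h3 (by omega),
            fac_right A (rfl : m i = m i) (by omega), fac_right A (rfl : m (i+1) = m (i+1)) (by omega),
            fac_left A h2 (by omega), fac_left A h3 (by omega)]
          simp only [s1, s2, s3, s4, cc, nd, dg]
          by_cases c1 : i ∈ S <;> by_cases c2 : i + 1 ∈ S <;> by_cases c3 : m i ∈ S <;>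
            by_cases c4 : m (i + 1) ∈ S <;> simp [c1, c2, c3, c4]
          all_goals grind
        · -- one left, one right
          have hqi2 : i + 1 < m (i+1) := by omega
          rw [fac_left A r1 (by omega), fac_right A r2 (by omega), fac_left A r3 (by omega),
            fac_right A r4 (by omega),
            fac_right A (rfl : m i = m i) (by omega), fac_left A (rfl : m (i+1) = m (i+1)) (by omega),
            fac_left A h2 (by omega), fac_right A h3 (by omega),
            fac_right A (rfl : m i = m i) (by omega), fac_left A (rfl : m (i+1) = m (i+1)) (by omega),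
            fac_left A h2 (by omega), fac_right A h3 (by omega)]
          simp only [s1, s2, s3, s4, cc, nd, dg]
          by_cases c1 : i ∈ S <;> by_cases c2 : i + 1 ∈ S <;> by_cases c3 : m i ∈ S <;>
            by_cases c4 : m (i + 1) ∈ S <;> simp [c1, c2, c3, c4]
          all_goals grind
      · have hpi2 : i + 1 < m i := by omega
        have := o1 (by omega) hpi2
        have hqi3 : i + 1 < m (i + 1) := by omega
        rw [fac_left A r1 (by omega), fac_right A r2 (by omega), fac_right A r3 (by omega),
          fac_left A r4 (by omega),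
          fac_left A (rfl : m i = m i) (by omega), fac_left A (rfl : m (i+1) = m (i+1)) (by omega),
          fac_right A h2 (by omega), fac_right A h3 (by omega),
          fac_left A (rfl : m i = m i) (by omega), fac_left A (rfl : m (i+1) = m (i+1)) (by omega),
          fac_right A h2 (by omega), fac_right A h3 (by omega)]
        simp only [s1, s2, s3, s4, cc, nd, dg]
        by_cases c1 : i ∈ S <;> by_cases c2 : i + 1 ∈ S <;> by_cases c3 : m i ∈ S <;>
          by_cases c4 : m (i + 1) ∈ S <;> simp [c1, c2, c3, c4]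
        all_goals grind

theorem local_loop (m : ℕ → ℕ) (hm : ∀ i, m (m i) = i) (i : ℕ) (hii : m i = i + 1)
    (S : Finset ℕ) :
    tau A * ∏ x ∈ ({i, i + 1} : Finset ℕ), fac A m S x =
      nd R i S * ∏ x ∈ ({i, i + 1} : Finset ℕ), fac A m (tog i S) x -
      dg A i S * ∏ x ∈ ({i, i + 1} : Finset ℕ), fac A m S x := by
  have h3 : m (i + 1) = i := by rw [← hii, hm]
  have hA : (A : R) * (↑A⁻¹ : R) = 1 := A.mul_inv
  have s1 : i ∈ tog i S ↔ i ∉ S := mem_tog_self
  have s2 : i + 1 ∈ tog i S ↔ i + 1 ∉ S := mem_tog_succ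
  simp only [prod_insert (show i ∉ ({i + 1} : Finset ℕ) by simp), prod_singleton]
  rw [fac_left A hii (by omega), fac_right A h3 (by omega), fac_left A hii (by omega),
    fac_right A h3 (by omega)]
  simp only [s1, s2, cc, nd, dg, tau]
  by_cases c1 : i ∈ S <;> by_cases c2 : i + 1 ∈ S <;> simp [c1, c2]
  all_goals grind

theorem local_fix (m : ℕ → ℕ) (i : ℕ) (hi : m i = i) (hi' : m (i + 1) = i + 1)
    (S : Finset ℕ) :
    0 = nd R i S * ∏ x ∈ ({i, i + 1} : Finset ℕ), fac A m (tog i S) x -
      dg A i S * ∏ x ∈ ({i, i + 1} : Finset ℕ), fac A m S x := by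
  have s1 : i ∈ tog i S ↔ i ∉ S := mem_tog_self
  have s2 : i + 1 ∈ tog i S ↔ i + 1 ∉ S := mem_tog_succ
  simp only [prod_insert (show i ∉ ({i + 1} : Finset ℕ) by simp), prod_singleton]
  rw [fac_fix A hi, fac_fix A hi', fac_fix A hi, fac_fix A hi']
  simp only [s1, s2, nd, dg]
  by_cases c1 : i ∈ S <;> by_cases c2 : i + 1 ∈ S <;> simp [c1, c2]

theorem fac_congr {m m' : ℕ → ℕ} {S S' : Finset ℕ} {x : ℕ} (h : m x = m' x)
    (h1 : x ∈ S ↔ x ∈ S') (h2 : m x ∈ S ↔ m x ∈ S') : fac A m S x = fac A m' S' x := by
  unfold fac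
  rw [← h]
  simp only [h1, h2]

theorem wt_loop (m : ℕ → ℕ) (hm : ∀ i, m (m i) = i) (i : ℕ) (hin : i + 1 < n)
    (hii : m i = i + 1) (S : Finset ℕ) :
    tau A * wt A m n S = nd R i S * wt A m n (tog i S) - dg A i S * wt A m n S := by
  have h3 : m (i + 1) = i := by rw [← hii, hm]
  unfold wt
  by_cases hS : S ⊆ range n
  · rw [if_pos hS, if_pos ((tog_subset hin S).2 hS)]
    have hT : ({i, i + 1} : Finset ℕ) ⊆ range n := by
      intro x hx
      simp only [mem_insert, mem_singleton] at hx
      rw [mem_range]
      omega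
    rw [← Finset.prod_sdiff hT, ← Finset.prod_sdiff hT]
    have e1 : ∏ x ∈ range n \ {i, i + 1}, fac A m (tog i S) x =
        ∏ x ∈ range n \ {i, i + 1}, fac A m S x := by
      refine Finset.prod_congr rfl fun x hx => ?_
      have hx' := (Finset.mem_sdiff.1 hx).2
      simp only [mem_insert, mem_singleton, not_or] at hx'
      refine fac_congr A rfl (mem_tog_of_ne hx'.1 hx'.2) (mem_tog_of_ne ?_ ?_)
      · intro h; exact hx'.2 (by rw [← hm x, h, hii])
      · intro h; exact hx'.1 (by rw [← hm x, h, h3])
    rw [e1]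
    linear_combination (∏ x ∈ range n \ {i, i + 1}, fac A m S x) * local_loop A m hm i hii S
  · rw [if_neg hS, if_neg (fun h => hS ((tog_subset hin S).1 h))]
    ring

theorem wt_fix (m : ℕ → ℕ) (hm : ∀ i, m (m i) = i) (i : ℕ) (hin : i + 1 < n)
    (hi : m i = i) (hi' : m (i + 1) = i + 1) (S : Finset ℕ) :
    0 = nd R i S * wt A m n (tog i S) - dg A i S * wt A m n S := by
  unfold wt
  by_cases hS : S ⊆ range n
  · rw [if_pos hS, if_pos ((tog_subset hin S).2 hS)]
    have hT : ({i, i + 1} : Finset ℕ) ⊆ range n := by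
      intro x hx
      simp only [mem_insert, mem_singleton] at hx
      rw [mem_range]
      omega
    rw [← Finset.prod_sdiff hT, ← Finset.prod_sdiff hT]
    have e1 : ∏ x ∈ range n \ {i, i + 1}, fac A m (tog i S) x =
        ∏ x ∈ range n \ {i, i + 1}, fac A m S x := by
      refine Finset.prod_congr rfl fun x hx => ?_
      have hx' := (Finset.mem_sdiff.1 hx).2
      simp only [mem_insert, mem_singleton, not_or] at hx'
      refine fac_congr A rfl (mem_tog_of_ne hx'.1 hx'.2) (mem_tog_of_ne ?_ ?_)
      · intro h; exact hx'.1 (by rw [← hm x, h, hi])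
      · intro h; exact hx'.2 (by rw [← hm x, h, hi'])
    rw [e1]
    linear_combination (∏ x ∈ range n \ {i, i + 1}, fac A m S x) * local_fix A m i hi hi' S
  · rw [if_neg hS, if_neg (fun h => hS ((tog_subset hin S).1 h))]
    ring

theorem wt_stack (m : ℕ → ℕ) (hm : ∀ i, m (m i) = i) (hn : ∀ i, m i ≠ i → i < n)
    (hc : ∀ i j, i < j → j < m i → m j ≠ j ∧ m j < m i) (i : ℕ) (hin : i + 1 < n)
    (hi : ¬ (m i = i ∧ m (i + 1) = i + 1)) (hii : m i ≠ i + 1) (S : Finset ℕ) :
    wt A (reMate m i) n S = nd R i S * wt A m n (tog i S) - dg A i S * wt A m n S := by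
  have h2 := hm i
  have h3 := hm (i+1)
  unfold wt
  by_cases hS : S ⊆ range n
  · rw [if_pos hS, if_pos ((tog_subset hin S).2 hS), if_pos hS]
    have hT : ({i, i + 1, m i, m (i+1)} : Finset ℕ) ⊆ range n := by
      intro x hx
      simp only [mem_insert, mem_singleton] at hx
      rw [mem_range]
      rcases hx with h | h | h | h
      · omega
      · omega
      · subst h
        by_cases h : m i = i
        · omega
        · exact hn _ (by rw [h2]; exact fun h' => h h'.symm)
      · subst h
        by_cases h : m (i+1) = i+1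
        · omega
        · exact hn _ (by rw [h3]; exact fun h' => h h'.symm)
    rw [← Finset.prod_sdiff hT, ← Finset.prod_sdiff hT, ← Finset.prod_sdiff hT]
    have e1 : ∏ x ∈ range n \ {i, i + 1, m i, m (i+1)}, fac A m (tog i S) x =
        ∏ x ∈ range n \ {i, i + 1, m i, m (i+1)}, fac A m S x := by
      refine Finset.prod_congr rfl fun x hx => ?_
      have hx' := (Finset.mem_sdiff.1 hx).2
      simp only [mem_insert, mem_singleton, not_or] at hx'
      refine fac_congr A rfl (mem_tog_of_ne hx'.1 hx'.2.1) (mem_tog_of_ne ?_ ?_)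
      · intro h; exact hx'.2.2.1 (by rw [← hm x, h])
      · intro h; exact hx'.2.2.2 (by rw [← hm x, h])
    have e2 : ∏ x ∈ range n \ {i, i + 1, m i, m (i+1)}, fac A (reMate m i) S x =
        ∏ x ∈ range n \ {i, i + 1, m i, m (i+1)}, fac A m S x := by
      refine Finset.prod_congr rfl fun x hx => ?_
      have hx' := (Finset.mem_sdiff.1 hx).2
      exact fac_congr A (reMate_eq hm hx') Iff.rfl Iff.rfl
    rw [e1, e2]
    linear_combination (∏ x ∈ range n \ {i, i + 1, m i, m (i+1)}, fac A m S x) *
      local_id A m hm hc i hi hii S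
  · rw [if_neg hS, if_neg (fun h => hS ((tog_subset hin S).1 h)), if_neg hS]
    ring

end weight

section module

variable {n k : ℕ} {R : Type*} [CommRing R] (A : Rˣ)

/-- the module `V^n_{n-2k}`, free on the crossingless diagrams -/
abbrev V (R : Type*) [CommRing R] (n k : ℕ) := Diagram n k →₀ R

theorem succ_lt (i : Fin (n - 1)) : (i : ℕ) + 1 < n := by omega

/-- the value of `e_i` on a diagram: `0` if this joins two through lines, and otherwise the
stacked diagram, times the value `tau` of a loop if a loop is closed -/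
noncomputable def eb (i : Fin (n - 1)) (d : Diagram n k) : V R n k :=
  if h : d.mate i = i ∧ d.mate (i + 1) = i + 1 then 0
  else if d.mate i = i + 1 then Finsupp.single (d.stack i (succ_lt i) h) (tau A)
  else Finsupp.single (d.stack i (succ_lt i) h) 1

/-- the action of `e_i` on `V^n_{n-2k}` -/
noncomputable def e (i : Fin (n - 1)) : Module.End R (V R n k) :=
  Finsupp.linearCombination R (eb A i)

/-- the vector of a diagram in tensor space -/
noncomputable def phib (d : Diagram n k) : T R :=
  Finsupp.onFinset (range n).powerset (wt A d.mate n) (by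
    intro S hS
    rw [mem_powerset]
    by_contra h
    exact hS (by rw [wt, if_neg h]))

/-- the embedding of `V^n_{n-2k}` in tensor space -/
noncomputable def phi : V R n k →ₗ[R] T R := Finsupp.linearCombination R (phib A)

theorem phib_apply (d : Diagram n k) (S : Finset ℕ) : phib A d S = wt A d.mate n S := rfl

theorem phi_single (d : Diagram n k) (r : R) :
    phi A (Finsupp.single d r) = r • phib A d := by simp [phi]

theorem reMate_self_of_loop {m : ℕ → ℕ} (hm : ∀ i, m (m i) = i) {i : ℕ} (hii : m i = i + 1) :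
    reMate m i = m := by
  have h3 : m (i + 1) = i := by rw [← hii, hm]
  funext x
  unfold reMate
  split_ifs with c1 c2 c3 c4 c5 c6
  · rw [c1, hii]
  · rw [c2, h3]
  · omega
  · exact absurd (by rw [← hm x, c3, hii]) c2
  · omega
  · exact absurd (by rw [← hm x, c5, h3]) c1
  · rfl

theorem phi_e (i : Fin (n - 1)) (v : V R n k) : phi A (e A i v) = E A i (phi A v) := by
  have : phi A ∘ₗ e A i = E A i ∘ₗ (phi A : V R n k →ₗ[R] T R) := by
    apply Finsupp.lhom_ext'
    intro d
    apply LinearMap.ext_ring
    simp only [LinearMap.comp_apply, Finsupp.lsingle_apply]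
    have h1 : e A i (Finsupp.single d 1) = eb A i d := by simp [e]
    rw [h1, phi_single, one_smul]
    ext S
    rw [E_apply, phib_apply, phib_apply]
    unfold eb
    have hin : (i : ℕ) + 1 < n := by omega
    split_ifs with c1 c2
    · rw [map_zero]
      simpa using wt_fix A d.mate d.mate_mate i hin c1.1 c1.2 S
    · rw [phi_single, Finsupp.smul_apply, phib_apply, smul_eq_mul]
      rw [← wt_loop A d.mate d.mate_mate i hin c2 S]
      simp only [Diagram.stack, reMate_self_of_loop d.mate_mate c2]
    · rw [phi_single, one_smul, phib_apply]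
      exact wt_stack A d.mate d.mate_mate d.lt_of_mate_ne d.nested i hin c1 c2 S
  exact congrArg (fun f => f v) this

end module

end Pool.Agent.W_89ccdb_h28
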