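import Pool.Agent.W_89ccdb_h28.Base

/-!
# The action of the braid group on `V^n_{n-2k}` is not faithful for `n ≥ 4k + 1`
-/

namespace Pool.Agent.W_89ccdb_h28

open Finset

universe u

section

variable {R : Type*} [CommRing R] (A : Rˣ)

theorem cnt_sta_6 (a : ℕ) : cnt a (a + 4) (sta a ∅ 6) = 2 := by
  have hO : ∀ i, a ≤ i → i ≤ a + 4 → i ∉ (∅ : Finset ℕ) := fun i _ _ => Finset.notMem_empty i
  have : sta a ∅ 6 ∩ Icc a (a + 4) = {a + 1, a + 2} := by
    ext x
    rw [mem_inter, mem_Icc, mem_insert, mem_singleton]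
    constructor
    · rintro ⟨h1, h2⟩
      obtain ⟨j, rfl⟩ : ∃ j, x = a + j := ⟨x - a, by omega⟩
      rw [mem_sta_in hO 6 (by omega)] at h1
      have : ∀ j < 5, Nat.testBit 6 j = true → j = 1 ∨ j = 2 := by decide
      have := this j (by omega) h1
      omega
    · rintro (rfl | rfl)
      · exact ⟨(mem_sta_in hO 6 (by omega)).2 (by decide), by omega⟩
      · exact ⟨(mem_sta_in hO 6 (by omega)).2 (by decide), by omega⟩
  unfold cnt
  rw [this, card_pair (by omega)]

theorem exists_word [IsDomain R] (hev : ∀ p : List ℤ, ev A p = 0 → isZero p = true) (k : ℕ)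
    (hk : 1 ≤ k) : ∃ w ∈ Wd 0 (4 * k),
      (∀ (R' : Type u) [CommRing R'] (B : R'ˣ), Tr B 0 (4 * k) k w) ∧
      Tr A 0 (4 * k) k w ∧ ∃ S, cnt 0 (4 * k) S = k + 1 ∧ act A w (dl R S) ≠ dl R S := by
  have hO : ∀ a i, a ≤ i → i ≤ a + 4 → i ∉ (∅ : Finset ℕ) := fun _ i _ _ => Finset.notMem_empty i
  induction k, hk using Nat.le_induction with
  | base =>
    refine ⟨wordOf 0 bigW, wordOf_mem 0 bigW_lt, fun _ _ B => tr_bigW B 0, tr_bigW A 0,
      sta 0 ∅ 6, cnt_sta_6 0, ?_⟩
    intro h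
    have h1 := coef_bigW A hev 0
    rw [h, dl, Finsupp.single_apply, if_neg] at h1
    · exact h1 rfl
    · intro h2
      exact absurd (sta_inj (hO 0) (by norm_num) (by norm_num) h2) (by norm_num)
  | succ k hk ih =>
    obtain ⟨x, hx, tx, tx0, hS⟩ := ih
    obtain ⟨x', hx', ⟨tx', tx0'⟩, S', h1, h2, h3⟩ := exists_conj' A
      (Q := fun x => (∀ (R' : Type u) [CommRing R'] (B : R'ˣ), Tr B 0 (4 * k) k x) ∧
        Tr A 0 (4 * k) k x)
      (fun g hg x hx => ⟨fun R' _ B => tr_conj B hg (hx.1 R' B), tr_conj A hg hx.2⟩)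
      hx ⟨tx, tx0⟩ hS
    have e4 : 4 * (k + 1) = 4 * k + 4 := by ring
    rw [e4]
    have hy := wordOf_mem (4 * k) bigW_lt
    refine ⟨x' * wordOf (4 * k) bigW * x'⁻¹ * (wordOf (4 * k) bigW)⁻¹, ?_, ?_, ?_, ?_⟩
    · have m1 : x' ∈ Wd 0 (4 * k + 4) := Wd_mono le_rfl (by omega) hx'
      have m2 : wordOf (4 * k) bigW ∈ Wd 0 (4 * k + 4) := Wd_mono (by omega) le_rfl hy
      exact mul_mem (mul_mem (mul_mem m1 m2) (inv_mem m1)) (inv_mem m2)
    · intro R' _ B
      exact tr_comm B (by omega) hx' hy (tx' R' B) (tr_bigW B (4 * k))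
    · exact tr_comm A (by omega) hx' hy tx0' (tr_bigW A (4 * k))
    · obtain ⟨S, hS1, hS2⟩ := noncomm A (by omega) hx' hy tx0' h1 h2 h3 (l := 1)
        (S₂ := sta (4 * k) ∅ 6) (S₃ := sta (4 * k) ∅ 9)
        (fun hh => by
          have := (mem_sta_in (hO (4 * k)) 6 (j := 0) (by norm_num)).1 (by simpa using hh)
          exact absurd this (by decide))
        (cnt_sta_6 (4 * k))
        (by
          have := (mem_sta_in (hO (4 * k)) 9 (j := 0) (by norm_num)).2 (by decide)
          simpa using this)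
        (coef_bigW A hev (4 * k))
      exact ⟨S, hS1, hS2⟩

theorem mem_range_map {n : ℕ} {m : ℕ} (hm : m ≤ n - 1) {w : FreeGroup ℕ} (hw : w ∈ Wd 0 m) :
    ∃ w' : FreeGroup (Fin (n - 1)), FreeGroup.map (fun i : Fin (n - 1) => (i : ℕ)) w' = w := by
  have h1 : Wd 0 m ≤ (FreeGroup.map (fun i : Fin (n - 1) => (i : ℕ))).range := by
    unfold Wd
    rw [Subgroup.closure_le]
    rintro _ ⟨i, hi, rfl⟩
    exact ⟨FreeGroup.of ⟨i, lt_of_lt_of_le hi.2 hm⟩, by simp⟩
  exact h1 hw

theorem card_of_compat {n k : ℕ} {d : Diagram n k} {S : Finset ℕ} (h : Compat d.mate S) :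
    S.card ≤ k := by
  rw [← d.card_cups]
  apply Finset.card_le_card_of_injOn (fun x => min x (d.mate x))
  · intro x hx
    have hx' : x ∈ S := hx
    have hne : d.mate x ≠ x := fun h5 => (h x).1 h5 hx'
    have e1 := d.mate_mate x
    simp only [coe_filter, mem_range, Set.mem_ofPred_eq]
    rcases min_choice x (d.mate x) with h3 | h3
    · rw [h3]
      have := min_le_right x (d.mate x)
      exact ⟨d.lt_of_mate_ne x hne, by omega⟩
    · rw [h3, e1]
      have := min_le_left x (d.mate x)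
      exact ⟨d.lt_of_mate_ne _ (by rw [e1]; exact hne.symm), by omega⟩
  · intro x hx y hy hxy
    simp only at hxy
    have hx' := h x
    have hy' := h y
    have e1 := d.mate_mate x
    have e2 := d.mate_mate y
    have hx2 : x ∈ S := hx
    have hy2 : y ∈ S := hy
    by_contra hne
    rcases min_choice x (d.mate x) with h3 | h3 <;> rcases min_choice y (d.mate y) with h4 | h4 <;>
      rw [h3, h4] at hxy
    · exact hne hxy
    · have : d.mate y ≠ y := fun h5 => hne (by rw [hxy, h5])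
      exact (hy'.2 this).1 hy2 (by rw [← hxy]; exact hx2)
    · have : d.mate x ≠ x := fun h5 => hne (by rw [← hxy, h5])
      exact (hx'.2 this).1 hx2 (by rw [hxy]; exact hy2)
    · exact hne (by rw [← e1, hxy, e2])

theorem cnt_le_card (a b : ℕ) (S : Finset ℕ) : cnt a b S ≤ S.card :=
  card_le_card Finset.inter_subset_left

theorem phi_supp {n k : ℕ} (v : V R n k) {S : Finset ℕ} (h : phi A v S ≠ 0) : S.card ≤ k := by
  by_contra hS
  apply h
  have : phi A v = v.sum fun d c => c • phib A d := by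
    rw [phi, Finsupp.linearCombination_apply]
  rw [this, Finsupp.sum_apply]
  apply Finset.sum_eq_zero
  intro d _
  change (v d • phib A d) S = 0
  rw [Finsupp.smul_apply, phib_apply]
  have : wt A d.mate n S = 0 := by
    by_contra h0
    exact hS (card_of_compat (compat_of_wt A h0))
  rw [this, smul_zero]

theorem rho_eq_one {n j k : ℕ} (hj : j ≤ k) {m : ℕ} {w' : FreeGroup (Fin (n - 1))}
    (tw : Tr A 0 m k (FreeGroup.map (fun i : Fin (n - 1) => (i : ℕ)) w')) :
    rho A n j (PresentedGroup.mk _ w') = 1 := by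
  change rho' A n j (PresentedGroup.mk _ w') = 1
  have hT := rhoT_mk A n w'
  apply Units.ext
  apply LinearMap.ext
  intro v
  apply phi_injective A
  rw [phi_rho, hT]
  simp only [Units.val_one, Module.End.one_apply]
  apply fix_of_forall (P := fun S => cnt 0 m S ≤ k) tw
  apply Finsupp.ext
  intro S
  by_cases h1 : cnt 0 m S ≤ k
  · rw [flt_pos (P := fun S => cnt 0 m S ≤ k) h1]
  · rw [flt_neg (P := fun S => cnt 0 m S ≤ k) h1]
    by_contra h2
    have h3 := phi_supp A v (fun h => h2 h.symm)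
    have h4 := cnt_le_card 0 m S
    omega

/-- the main theorem; the existence of a parameter which is not a root of any integer polynomial
is used only to see that the braid is not trivial -/
theorem main [IsDomain R] (hev : ∀ p : List ℤ, ev A p = 0 → isZero p = true) (n k : ℕ)
    (hk : 1 ≤ k) (hn : 4 * k + 1 ≤ n) :
    ∃ β : Braid n, β ≠ 1 ∧
      ∀ (R' : Type u) [CommRing R'] (B : R'ˣ), ∀ j ≤ k, rho B n j β = 1 := by
  obtain ⟨w, hw, tw, _, S, _, hS⟩ := exists_word.{u} A hev k hk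
  obtain ⟨w', rfl⟩ := mem_range_map (n := n) (by omega) hw
  have hT := rhoT_mk A n w'
  refine ⟨PresentedGroup.mk _ w', ?_, fun R' _ B j hj => rho_eq_one B hj (tw R' B)⟩
  intro h
  apply hS
  rw [h, map_one] at hT
  rw [act, ← hT]
  rfl

end

end Pool.Agent.W_89ccdb_h28
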