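import Pool.Agent.W_89ccdb_h28.Glue

/-!
# The commutators are not trivial
-/

namespace Pool.Agent.W_89ccdb_h28

open Finset

open Classical

section

variable {R : Type*} [CommRing R] (A : Rˣ)

/-- change the entries at the positions in `O` -/
noncomputable def io (R : Type*) [CommRing R] (O : Finset ℕ) : T R →ₗ[R] T R :=
  Finsupp.lmapDomain R R (fun S => symmDiff S O)

theorem io_dl (O S : Finset ℕ) : io R O (dl R S) = dl R (symmDiff S O) := by
  simp [io, dl, Finsupp.lmapDomain_apply, Finsupp.mapDomain_single]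

theorem io_io (O : Finset ℕ) (v : T R) : io R O (io R O v) = v := by
  have : io R O ∘ₗ io R O = LinearMap.id := by
    apply ext_dl
    intro S
    rw [LinearMap.comp_apply, io_dl, io_dl, symmDiff_symmDiff_cancel_right, LinearMap.id_apply]
  exact congrArg (fun f => f v) this

theorem io_apply (O S : Finset ℕ) (v : T R) : io R O v (symmDiff S O) = v S := by
  unfold io
  rw [Finsupp.lmapDomain_apply]
  exact Finsupp.mapDomain_apply (symmDiff_left_injective O) v S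

theorem io_E {O : Finset ℕ} {i : ℕ} (hi : i ∉ O) (hi' : i + 1 ∉ O) (v : T R) :
    io R O (E A i v) = E A i (io R O v) := by
  have : io R O ∘ₗ E A i = E A i ∘ₗ io R O := by
    apply ext_dl
    intro S
    have m1 : i ∈ symmDiff S O ↔ i ∈ S := by rw [mem_symmDiff]; tauto
    have m2 : i + 1 ∈ symmDiff S O ↔ i + 1 ∈ S := by rw [mem_symmDiff]; tauto
    have n1 : nd R i (symmDiff S O) = nd R i S := by simp only [nd, m1, m2]
    have n2 : dg A i (symmDiff S O) = dg A i S := by simp only [dg, m1, m2]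
    have n3 : tog i (symmDiff S O) = symmDiff (tog i S) O := by
      unfold tog
      rw [symmDiff_right_comm]
    rw [LinearMap.comp_apply, LinearMap.comp_apply, E_form, map_sub, map_smul, map_smul, io_dl,
      io_dl, E_form, n1, n2, n3]
  exact congrArg (fun f => f v) this

theorem io_act {a b : ℕ} {O : Finset ℕ} (hO : ∀ i, a ≤ i → i ≤ b → i ∉ O) {w : FreeGroup ℕ}
    (hw : w ∈ Wd a b) (v : T R) : io R O (act A w v) = act A w (io R O v) := by
  induction hw using Subgroup.closure_induction generalizing v with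
  | mem x hx =>
    obtain ⟨i, hi, rfl⟩ := hx
    rw [act_of, act_of, map_add, map_smul, map_smul,
      io_E A (hO i hi.1 hi.2.le) (hO (i + 1) (by have := hi.1; omega) hi.2)]
  | one => rw [act_one, act_one]
  | mul x y _ _ hx hy => rw [act_mul, act_mul, hx, hy]
  | inv x _ hx =>
    have := hx (act A x⁻¹ v)
    rw [act_act_inv] at this
    rw [this, act_inv_act]

theorem mem_of_sdiff_eq {S U : Finset ℕ} {a b i : ℕ} (h : S \ Icc a b = U \ Icc a b)
    (hi : ¬ (a ≤ i ∧ i ≤ b)) : i ∈ S ↔ i ∈ U := by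
  have h1 : i ∈ S \ Icc a b ↔ i ∈ U \ Icc a b := by rw [h]
  rw [mem_sdiff, mem_sdiff, mem_Icc] at h1
  exact ⟨fun h2 => (h1.1 ⟨h2, hi⟩).1, fun h2 => (h1.2 ⟨h2, hi⟩).1⟩

theorem notMem_symmDiff {S U : Finset ℕ} {i : ℕ} (h : i ∈ S ↔ i ∈ U) : i ∉ symmDiff S U := by
  rw [mem_symmDiff]
  rintro (⟨h1, h2⟩ | ⟨h1, h2⟩)
  · exact h2 (h.1 h1)
  · exact h2 (h.2 h1)

/-- the locality of the action -/
theorem local_act {a b : ℕ} {y : FreeGroup ℕ} (hy : y ∈ Wd a b) {S₀ S : Finset ℕ}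
    (hS : act A y (dl R S₀) S ≠ 0) : S \ Icc a b = S₀ \ Icc a b ∧ cnt a b S = cnt a b S₀ := by
  by_contra hn
  apply hS
  have hf : flt (fun S => S \ Icc a b = S₀ \ Icc a b ∧ cnt a b S = cnt a b S₀)
      (act A y (dl R S₀)) = act A y (dl R S₀) := by
    rw [filter_act A _ hy, filter_dl ⟨rfl, rfl⟩]
    exact (stable_sdiff (fun c => c = S₀ \ Icc a b)).and
      (stable_cnt le_rfl le_rfl (fun c => c = cnt a b S₀))
  rw [← hf, flt_neg hn]

/-- a state is determined by its entries away from `a`, and by the number of entries in `[a, b]` -/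
theorem state_eq {a b : ℕ} (hab : a ≤ b) {S U : Finset ℕ} (h1 : S \ Icc a b = U \ Icc a b)
    (h2 : S \ Icc 0 a = U \ Icc 0 a) (h3 : cnt a b S = cnt a b U) (h4 : a ∈ U) : S = U := by
  have k1 : ∀ i, a < i → (i ∈ S ↔ i ∈ U) := fun i hi => mem_of_sdiff_eq h2 (by omega)
  have k2 : ∀ i, i < a → (i ∈ S ↔ i ∈ U) := fun i hi => mem_of_sdiff_eq h1 (by omega)
  have k3 : a ∈ S := by
    by_contra hn
    have : S ∩ Icc a b ⊂ U ∩ Icc a b := by
      rw [Finset.ssubset_iff_of_subset]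
      · exact ⟨a, mem_inter.2 ⟨h4, mem_Icc.2 ⟨le_rfl, hab⟩⟩,
          fun h => hn (mem_inter.1 h).1⟩
      · intro i hi
        rw [mem_inter, mem_Icc] at hi ⊢
        have hia : i ≠ a := fun h => hn (h ▸ hi.1)
        exact ⟨(k1 i (by omega)).1 hi.1, hi.2⟩
    have h5 := card_lt_card this
    unfold cnt at h3
    omega
  ext i
  rcases lt_trichotomy i a with h8 | h8 | h8
  · exact k2 i h8
  · rw [h8]; exact iff_of_true k3 h4
  · exact k1 i h8

theorem glue_state {a b k l : ℕ} {S₁ S₂ : Finset ℕ} (hab : a ≤ b) (h1 : a ∈ S₁)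
    (h1' : cnt 0 a S₁ = k + 1) (h2 : a ∉ S₂) (h2' : cnt a b S₂ = l + 1) :
    ∃ T₀ : Finset ℕ, (∀ i, i < a → (i ∈ T₀ ↔ i ∈ S₁)) ∧
      (∀ i, a ≤ i → i ≤ b → (i ∈ T₀ ↔ i ∈ S₂)) ∧
      cnt 0 a T₀ = k ∧ cnt a b T₀ = l + 1 ∧ cnt 0 b T₀ = k + l + 1 := by
  have memT : ∀ i, i ∈ (S₁ ∩ Icc 0 a).erase a ∪ (S₂ ∩ Icc a b) ↔
      (i < a ∧ i ∈ S₁) ∨ (a < i ∧ i ≤ b ∧ i ∈ S₂) := by
    intro i
    rw [mem_union, mem_erase, mem_inter, mem_inter, mem_Icc, mem_Icc]
    constructor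
    · rintro (⟨c1, c2, c3⟩ | ⟨c1, c2⟩)
      · left; exact ⟨by omega, c2⟩
      · right
        have : i ≠ a := fun h => h2 (h ▸ c1)
        exact ⟨by omega, c2.2, c1⟩
    · rintro (⟨c1, c2⟩ | ⟨c1, c2, c3⟩)
      · left; exact ⟨by omega, c2, by omega⟩
      · right; exact ⟨c3, by omega⟩
  generalize hT : (S₁ ∩ Icc 0 a).erase a ∪ (S₂ ∩ Icc a b) = T₀ at memT
  have p1 : ∀ i, i < a → (i ∈ T₀ ↔ i ∈ S₁) := by
    intro i hi
    rw [memT]
    constructor
    · rintro (⟨_, c⟩ | ⟨c, _⟩)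
      · exact c
      · omega
    · intro c; left; exact ⟨hi, c⟩
  have p2 : ∀ i, a ≤ i → i ≤ b → (i ∈ T₀ ↔ i ∈ S₂) := by
    intro i hi hi'
    rw [memT]
    constructor
    · rintro (⟨c, _⟩ | ⟨_, _, c⟩)
      · omega
      · exact c
    · intro c
      right
      have : i ≠ a := fun h => h2 (h ▸ c)
      exact ⟨by omega, hi', c⟩
  have haT : a ∉ T₀ := fun h => h2 ((p2 a le_rfl hab).1 h)
  have cT1 : cnt 0 a T₀ = k := by
    have : T₀ ∩ Icc 0 a = (S₁ ∩ Icc 0 a).erase a := by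
      ext i
      rw [mem_inter, mem_erase, mem_inter, mem_Icc]
      constructor
      · rintro ⟨c1, c2⟩
        have hia : i ≠ a := fun h => haT (h ▸ c1)
        exact ⟨hia, (p1 i (by omega)).1 c1, c2⟩
      · rintro ⟨c1, c2, c3⟩
        exact ⟨(p1 i (by omega)).2 c2, c3⟩
    unfold cnt
    rw [this, card_erase_of_mem (mem_inter.2 ⟨h1, mem_Icc.2 ⟨by omega, le_rfl⟩⟩)]
    unfold cnt at h1'
    omega
  have cT2 : cnt a b T₀ = l + 1 := by
    rw [← h2']
    unfold cnt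
    congr 1
    ext i
    rw [mem_inter, mem_inter, mem_Icc]
    constructor
    · rintro ⟨c1, c2⟩
      exact ⟨(p2 i c2.1 c2.2).1 c1, c2⟩
    · rintro ⟨c1, c2⟩
      exact ⟨(p2 i c2.1 c2.2).2 c1, c2⟩
  have cT3 : cnt 0 b T₀ = k + l + 1 := by
    have := cnt_add a b hab T₀
    rw [if_neg haT] at this
    omega
  exact ⟨T₀, p1, p2, cT1, cT2, cT3⟩

theorem noncomm [IsDomain R] {a b k l : ℕ} (hab : a ≤ b) {x y : FreeGroup ℕ} (hx : x ∈ Wd 0 a)
    (hy : y ∈ Wd a b) (tx : Tr A 0 a k x)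
    {S₁ : Finset ℕ} (h1 : a ∈ S₁) (h1' : cnt 0 a S₁ = k + 1) (h1'' : act A x (dl R S₁) ≠ dl R S₁)
    {S₂ S₃ : Finset ℕ} (h2 : a ∉ S₂) (h2' : cnt a b S₂ = l + 1) (h3 : a ∈ S₃)
    (h3' : act A y (dl R S₂) S₃ ≠ 0) :
    ∃ S, cnt 0 b S = k + l + 1 ∧ act A (x * y * x⁻¹ * y⁻¹) (dl R S) ≠ dl R S := by
  have hx' : x ∈ Wd 0 b := Wd_mono le_rfl hab hx
  have hy' : y ∈ Wd 0 b := Wd_mono (Nat.zero_le _) le_rfl hy
  by_contra hcon
  have hcon' : ∀ S, cnt 0 b S = k + l + 1 → act A (x * y * x⁻¹ * y⁻¹) (dl R S) = dl R S := by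
    intro S hS
    by_contra hS'
    exact hcon ⟨S, hS, hS'⟩
  obtain ⟨T₀, p1, p2, cT1, cT2, cT3⟩ := glue_state hab h1 h1' h2 h2'
  -- the vector `y T₀`
  have hOab : ∀ i, a ≤ i → i ≤ b → i ∉ symmDiff S₂ T₀ := fun i hi hi' =>
    notMem_symmDiff (p2 i hi hi').symm
  have hv : act A y (dl R T₀) = io R (symmDiff S₂ T₀) (act A y (dl R S₂)) := by
    rw [io_act A hOab hy, io_dl, symmDiff_symmDiff_cancel_left]
  obtain ⟨U, hU⟩ : ∃ U, U = symmDiff S₃ (symmDiff S₂ T₀) := ⟨_, rfl⟩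
  have hvU : act A y (dl R T₀) U ≠ 0 := by
    rw [hv, hU, io_apply]
    exact h3'
  have haU : a ∈ U := by
    rw [hU, mem_symmDiff]
    exact Or.inl ⟨h3, hOab a le_rfl hab⟩
  have hUloc := local_act A hy hvU
  -- `x` moves `U`
  have hxU : act A x (dl R U) ≠ dl R U := by
    intro hh
    apply h1''
    have hO'a : ∀ i, 0 ≤ i → i ≤ a → i ∉ symmDiff U S₁ := by
      intro i _ hi
      apply notMem_symmDiff
      by_cases hia : i = a
      · rw [hia]; exact iff_of_true haU h1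
      · rw [mem_of_sdiff_eq hUloc.1 (by omega)]
        exact p1 i (by omega)
    have h4 := congrArg (io R (symmDiff U S₁)) hh
    rwa [io_act A hO'a hx, io_dl, symmDiff_symmDiff_cancel_left] at h4
  -- the commutator fixes everything, hence `x` fixes `y T₀`
  have hfix : act A x (act A y (dl R T₀)) = act A y (dl R T₀) := by
    have h4 : act A (x * y * x⁻¹ * y⁻¹) (act A (y * x) (dl R T₀)) = act A (y * x) (dl R T₀) := by
      apply fix_of_forall (P := fun S => cnt 0 b S = k + l + 1) hcon'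
      rw [filter_act A (stable_cnt le_rfl le_rfl (fun c => c = k + l + 1)) (mul_mem hy' hx'),
        filter_dl cT3]
    rw [← act_mul, show x * y * x⁻¹ * y⁻¹ * (y * x) = x * y by group, act_mul, act_mul,
      tx T₀ cT1.le] at h4
    exact h4
  -- restrict to the fibre of `U`
  have hfil : flt (fun S => S \ Icc 0 a = U \ Icc 0 a) (act A y (dl R T₀)) =
      (act A y (dl R T₀) U) • dl R U := by
    apply Finsupp.ext
    intro S
    by_cases hSU : S = U
    · rw [hSU, flt_pos (P := fun S => S \ Icc 0 a = U \ Icc 0 a) rfl, Finsupp.smul_apply]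
      simp [dl]
    · have e1 : (dl R U) S = 0 := by
        unfold dl
        rw [Finsupp.single_apply, if_neg (fun h => hSU h.symm)]
      rw [Finsupp.smul_apply, e1, smul_zero]
      by_cases hS0 : act A y (dl R T₀) S = 0
      · by_cases hS1 : S \ Icc 0 a = U \ Icc 0 a
        · rw [flt_pos (P := fun S => S \ Icc 0 a = U \ Icc 0 a) hS1, hS0]
        · rw [flt_neg (P := fun S => S \ Icc 0 a = U \ Icc 0 a) hS1]
      · rw [flt_neg]
        intro hS1
        apply hSU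
        have hSloc := local_act A hy hS0
        exact state_eq hab (hSloc.1.trans hUloc.1.symm) hS1 (hSloc.2.trans hUloc.2.symm) haU
  have h5 := filter_act A (stable_sdiff (a := 0) (b := a) (fun c => c = U \ Icc 0 a)) hx
    (act A y (dl R T₀))
  rw [hfix, hfil, map_smul] at h5
  have h6 : (act A y (dl R T₀) U) • (act A x (dl R U) - dl R U) = 0 := by
    rw [smul_sub, ← h5, sub_self]
  rcases smul_eq_zero.1 h6 with h7 | h7
  · exact hvU h7
  · exact hxU (sub_eq_zero.1 h7)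

end

end Pool.Agent.W_89ccdb_h28
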