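import Pool.Agent.W_89ccdb_h28.Inject

/-!
# The braid group and its action on the diagram modules and on tensor space
-/

namespace Pool.Agent.W_89ccdb_h28

open Finset

/-- the relator `σ_i σ_j = σ_j σ_i` -/
def commRel {m : ℕ} (i j : Fin m) : FreeGroup (Fin m) :=
  FreeGroup.of i * FreeGroup.of j * (FreeGroup.of j * FreeGroup.of i)⁻¹

/-- the relator `σ_i σ_j σ_i = σ_j σ_i σ_j` -/
def braidRel {m : ℕ} (i j : Fin m) : FreeGroup (Fin m) :=
  FreeGroup.of i * FreeGroup.of j * FreeGroup.of i *
    (FreeGroup.of j * FreeGroup.of i * FreeGroup.of j)⁻¹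

/-- the defining relators of the braid group on `n` strands; the generator `i : Fin (n - 1)` is
the crossing of the strands `i` and `i + 1` (numbered from `0`) -/
def braidRels (n : ℕ) : Set (FreeGroup (Fin (n - 1))) :=
  {r | (∃ i j : Fin (n - 1), (i : ℕ) + 1 < j ∧ r = commRel i j) ∨
    (∃ i j : Fin (n - 1), (i : ℕ) + 1 = j ∧ r = braidRel i j)}

/-- the braid group on `n` strands -/
abbrev Braid (n : ℕ) := PresentedGroup (braidRels n)

section

variable {n k : ℕ} {R : Type*} [CommRing R] (A : Rˣ)

/-- the relations of the Temperley-Lieb generators -/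
structure IsTL {B : Type*} [Ring B] [Algebra R B] (f : Fin (n - 1) → B) : Prop where
  sq : ∀ i, f i * f i = tau A • f i
  far : ∀ i j : Fin (n - 1), (i : ℕ) + 1 < j → f i * f j = f j * f i
  tl1 : ∀ i j : Fin (n - 1), (i : ℕ) + 1 = j → f i * f j * f i = f i
  tl2 : ∀ i j : Fin (n - 1), (i : ℕ) + 1 = j → f j * f i * f j = f j

/-- the operators of the braid generators -/
def unitOf {B : Type*} [Ring B] [Algebra R B] {f : Fin (n - 1) → B} (h : IsTL A f)
    (i : Fin (n - 1)) : Bˣ := mkUnit A (f i) (h.sq i)

/-- a family of Temperley-Lieb generators satisfies the braid relations -/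
theorem rel_of_tl {B : Type*} [Ring B] [Algebra R B] {f : Fin (n - 1) → B} (h : IsTL A f) :
    ∀ r ∈ braidRels n, FreeGroup.lift (unitOf A h) r = 1 := by
  rintro r (⟨i, j, hij, rfl⟩ | ⟨i, j, hij, rfl⟩)
  · simp only [commRel, map_mul, map_inv, FreeGroup.lift_apply_of, unitOf]
    rw [mkUnit_comm A _ _ (h.sq i) (h.sq j) (h.far i j hij), mul_inv_cancel]
  · simp only [braidRel, map_mul, map_inv, FreeGroup.lift_apply_of, unitOf]
    rw [mkUnit_braid A _ _ (h.sq i) (h.sq j) (h.tl1 i j hij) (h.tl2 i j hij), mul_inv_cancel]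

theorem e_sq (i : Fin (n - 1)) : (e A i * e A i : Module.End R (V R n k)) = tau A • e A i := by
  apply LinearMap.ext
  intro v
  apply phi_injective A
  simp only [Module.End.mul_apply, phi_e, LinearMap.smul_apply, map_smul]
  rw [← Module.End.mul_apply, E_sq A, LinearMap.smul_apply]

theorem e_far (i j : Fin (n - 1)) (hij : (i : ℕ) + 1 < j) :
    (e A i * e A j : Module.End R (V R n k)) = e A j * e A i := by
  apply LinearMap.ext
  intro v
  apply phi_injective A
  simp only [Module.End.mul_apply, phi_e]
  rw [← Module.End.mul_apply, E_far A hij, Module.End.mul_apply]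

theorem e_tl (i j : Fin (n - 1)) (hij : (i : ℕ) + 1 = j) :
    (e A i * e A j * e A i : Module.End R (V R n k)) = e A i ∧
    (e A j * e A i * e A j : Module.End R (V R n k)) = e A j := by
  constructor
  · apply LinearMap.ext
    intro v
    apply phi_injective A
    simp only [Module.End.mul_apply, phi_e]
    rw [← Module.End.mul_apply, ← Module.End.mul_apply, ← hij, E_tl1 A]
  · apply LinearMap.ext
    intro v
    apply phi_injective A
    simp only [Module.End.mul_apply, phi_e]
    rw [← Module.End.mul_apply, ← Module.End.mul_apply, ← hij, E_tl2 A]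

theorem e_isTL : IsTL A (e (n := n) (k := k) A) :=
  ⟨e_sq A, e_far A, fun i j h => (e_tl A i j h).1, fun i j h => (e_tl A i j h).2⟩

/-- the group of invertible linear maps of `V^n_{n-2k}` -/
def GLV (R : Type*) [CommRing R] (n k : ℕ) : Type _ := (Module.End R (V R n k))ˣ

noncomputable instance GLV.group (R : Type*) [CommRing R] (n k : ℕ) : Group (GLV R n k) :=
  Units.instGroup (α := Module.End R (V R n k))

/-- the linear map underlying an element of `GLV R n k` -/
def GLV.toEnd {R : Type*} [CommRing R] {n k : ℕ} (g : GLV R n k) : Module.End R (V R n k) :=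
  Units.val g

/-- the operator `A + A⁻¹ e_i` on `V^n_{n-2k}` -/
noncomputable def sgV (n k : ℕ) (i : Fin (n - 1)) : GLV R n k :=
  mkUnit A (e A i) (e_sq A i)

theorem sgV_rel (n k : ℕ) : ∀ r ∈ braidRels n, FreeGroup.lift (sgV A n k) r = 1 :=
  rel_of_tl A (e_isTL A)

/-- the action of the braid group on `V^n_{n-2k}`: the generator `i` acts as `A + A⁻¹ e_i` -/
noncomputable def rho (n k : ℕ) : Braid n →* GLV R n k :=
  PresentedGroup.toGroup (sgV_rel A n k)

theorem rho_of (i : Fin (n - 1)) :
    (rho A n k (PresentedGroup.of i)).toEnd = (A : R) • 1 + (↑A⁻¹ : R) • e A i := by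
  rw [rho, PresentedGroup.toGroup.of]
  rfl

/-- the same homomorphism, with values in the units -/
noncomputable def rho' (n k : ℕ) : Braid n →* (Module.End R (V R n k))ˣ := rho A n k

theorem rho'_of (i : Fin (n - 1)) :
    ((rho' A n k (PresentedGroup.of i) : (Module.End R (V R n k))ˣ) : Module.End R (V R n k)) =
      (A : R) • 1 + (↑A⁻¹ : R) • e A i := rho_of A i

/-- the operators of the braid generators on tensor space -/
noncomputable def sg (i : ℕ) : (Module.End R (T R))ˣ := mkUnit A (E A i) (E_sq A i)

/-- words in the braid generators acting on tensor space -/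
noncomputable def freeT : FreeGroup ℕ →* (Module.End R (T R))ˣ := FreeGroup.lift (sg A)

theorem E_isTL (n : ℕ) : IsTL A (fun i : Fin (n - 1) => E A i) :=
  ⟨fun i => E_sq A i, fun _ _ => E_far A, fun i j hij => by rw [← hij]; exact E_tl1 A i,
    fun i j hij => by rw [← hij]; exact E_tl2 A i⟩

/-- the action of the braid group on tensor space -/
noncomputable def rhoT (n : ℕ) : Braid n →* (Module.End R (T R))ˣ :=
  PresentedGroup.toGroup (rel_of_tl A (E_isTL A n))

theorem rhoT_mk (n : ℕ) (w : FreeGroup (Fin (n - 1))) :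
    rhoT A n (PresentedGroup.mk _ w) =
      freeT A (FreeGroup.map (fun i : Fin (n - 1) => (i : ℕ)) w) := by
  have : (rhoT A n).comp (PresentedGroup.mk (braidRels n)) =
      (freeT A).comp (FreeGroup.map (fun i : Fin (n - 1) => (i : ℕ))) := by
    ext1 i
    simp only [MonoidHom.comp_apply, FreeGroup.map.of, freeT, FreeGroup.lift_apply_of]
    exact PresentedGroup.toGroup.of _
  exact congrArg (fun f => f w) this

theorem phi_rho (b : Braid n) (v : V R n k) :
    phi A ((rho' A n k b : Module.End R (V R n k)) v) =
      (rhoT A n b : Module.End R (T R)) (phi A v) := by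
  revert v
  have hgen : ∀ i : Fin (n - 1), ∀ v : V R n k,
      phi A ((rho' A n k (PresentedGroup.of i) : Module.End R (V R n k)) v) =
      (rhoT A n (PresentedGroup.of i) : Module.End R (T R)) (phi A v) := by
    intro i v
    rw [rho'_of]
    have : ((rhoT A n (PresentedGroup.of i) : (Module.End R (T R))ˣ) : Module.End R (T R)) =
      (A : R) • 1 + (↑A⁻¹ : R) • E A i := by
      rw [rhoT, PresentedGroup.toGroup.of]
      rfl
    rw [this]
    simp only [LinearMap.add_apply, LinearMap.smul_apply, Module.End.one_apply, map_add, map_smul,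
      phi_e]
  obtain ⟨w, rfl⟩ := PresentedGroup.mk_surjective _ b
  induction w using FreeGroup.induction_on with
  | C1 => intro v; simp
  | of i => exact hgen i
  | inv_of i ih =>
    intro v
    have h1 := hgen i (((rho' A n k (PresentedGroup.of i))⁻¹).val v)
    rw [map_inv, map_inv, map_inv]
    change phi A (((rho' A n k (PresentedGroup.of i))⁻¹).val v) =
      ((rhoT A n (PresentedGroup.of i))⁻¹).val (phi A v)
    rw [← Module.End.mul_apply, ← Units.val_mul, mul_inv_cancel, Units.val_one,
      Module.End.one_apply] at h1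
    rw [h1, ← Module.End.mul_apply, ← Units.val_mul, inv_mul_cancel, Units.val_one,
      Module.End.one_apply]
  | mul x y hx hy =>
    intro v
    simp only [map_mul, Units.val_mul, Module.End.mul_apply]
    rw [hx, hy]

end

end Pool.Agent.W_89ccdb_h28
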