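import Pool.Agent.W_89ccdb_h28.Engine

/-!
# Soundness of the computation
-/

namespace Pool.Agent.W_89ccdb_h28

open Finset

section

variable {R : Type*} [CommRing R] (A : Rˣ)

/-- the value of a polynomial at `t = A⁻⁴` -/
def ev : List ℤ → R
  | [] => 0
  | c :: p => (c : R) + (↑A⁻¹ : R) ^ 4 * ev p

theorem ev_padd : ∀ p q : List ℤ, ev A (padd p q) = ev A p + ev A q
  | [], q => by simp [padd, ev]
  | a :: p, [] => by simp [padd, ev]
  | a :: p, b :: q => by
    simp only [padd, ev, ev_padd p q, Int.cast_add]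
    ring

theorem ev_neg : ∀ p : List ℤ, ev A (p.map (fun c => -c)) = - ev A p
  | [] => by simp [ev]
  | a :: p => by
    simp only [List.map_cons, ev, ev_neg p, Int.cast_neg]
    ring

theorem ev_shift (p : List ℤ) : ev A (0 :: p) = (↑A⁻¹ : R) ^ 4 * ev A p := by simp [ev]

/-- the state with entries `O` outside `[a, a+4]` and the bits of `s` at `a, ..., a+4` -/
def sta (a : ℕ) (O : Finset ℕ) (s : ℕ) : Finset ℕ :=
  O ∪ ((range 5).filter fun j => s.testBit j = true).image (fun j => a + j)

theorem mem_sta_in {a : ℕ} {O : Finset ℕ} (hO : ∀ i, a ≤ i → i ≤ a + 4 → i ∉ O) (s : ℕ) {j : ℕ}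
    (hj : j < 5) : a + j ∈ sta a O s ↔ s.testBit j = true := by
  unfold sta
  rw [mem_union, mem_image]
  constructor
  · rintro (h | ⟨j', h1, h2⟩)
    · exact absurd h (hO _ (by omega) (by omega))
    · have : j' = j := by omega
      rw [← this]
      exact (mem_filter.1 h1).2
  · intro h
    exact Or.inr ⟨j, mem_filter.2 ⟨mem_range.2 hj, h⟩, rfl⟩

theorem mem_sta_out {a : ℕ} {O : Finset ℕ} (s : ℕ) {x : ℕ} (hx : ¬ (a ≤ x ∧ x ≤ a + 4)) :
    x ∈ sta a O s ↔ x ∈ O := by
  unfold sta
  rw [mem_union, mem_image]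
  constructor
  · rintro (h | ⟨j', h1, h2⟩)
    · exact h
    · have := mem_range.1 (mem_filter.1 h1).1
      omega
  · exact Or.inl

theorem flip_lt : ∀ i < 4, ∀ s < 32, flip i s < 32 := by decide

theorem testBit_flip : ∀ i < 4, ∀ s < 32, ∀ j < 5,
    (flip i s).testBit j = xor (s.testBit j) (j == i || j == i + 1) := by decide

/-- the weight of a state -/
def wtt (s : ℕ) : ℕ := ∑ j ∈ range 5, if s.testBit j = true then j else 0

theorem wtt_flip : ∀ i < 4, ∀ s < 32, s.testBit i = true → s.testBit (i + 1) = false →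
    wtt (flip i s) = wtt s + 1 := by decide

theorem wtt_flip' : ∀ i < 4, ∀ s < 32, s.testBit i = false → s.testBit (i + 1) = true →
    wtt s = wtt (flip i s) + 1 := by decide

theorem tog_sta {a : ℕ} {O : Finset ℕ} (hO : ∀ i, a ≤ i → i ≤ a + 4 → i ∉ O) {i s : ℕ}
    (hi : i < 4) (hs : s < 32) : tog (a + i) (sta a O s) = sta a O (flip i s) := by
  ext x
  rw [mem_tog]
  by_cases hx : a ≤ x ∧ x ≤ a + 4
  · obtain ⟨j, rfl⟩ : ∃ j, x = a + j := ⟨x - a, by omega⟩
    have hj : j < 5 := by omega
    rw [mem_sta_in hO s hj, mem_sta_in hO _ hj, testBit_flip i hi s hs j hj]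
    have e1 : (a + j = a + i ∨ a + j = a + i + 1) ↔ (j == i || j == i + 1) = true := by
      simp only [Bool.or_eq_true, beq_iff_eq]
      omega
    rw [e1]
    cases s.testBit j <;> cases (j == i || j == i + 1) <;> simp
  · rw [mem_sta_out _ hx, mem_sta_out _ hx]
    have : ¬ (x = a + i ∨ x = a + i + 1) := by omega
    tauto

/-- the scaled basis vectors -/
noncomputable def bb (a : ℕ) (O : Finset ℕ) (s : ℕ) : T R :=
  ((A : R) ^ (2 * wtt s)) • dl R (sta a O s)

theorem act_of_inv (i : ℕ) (v : T R) :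
    act A (FreeGroup.of i)⁻¹ v = (↑A⁻¹ : R) • v + (A : R) • E A i v := by
  unfold act
  rw [map_inv]
  unfold freeT
  rw [FreeGroup.lift_apply_of]
  rfl

variable {a : ℕ} {O : Finset ℕ} (hO : ∀ i, a ≤ i → i ≤ a + 4 → i ∉ O)

include hO

theorem act_bb_eq {i s : ℕ} (hi : i < 4) (h : s.testBit i = s.testBit (i + 1)) :
    act A (FreeGroup.of (a + i)) (bb A a O s) = (A : R) • bb A a O s := by
  unfold bb
  rw [act_of, map_smul, E_eq A, smul_zero, smul_zero, add_zero]
  rw [mem_sta_in hO s (by omega), add_assoc, mem_sta_in hO s (by omega), h]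

theorem act_bb_10 {i s : ℕ} (hi : i < 4) (hs : s < 32) (h : s.testBit i = true)
    (h' : s.testBit (i + 1) = false) :
    act A (FreeGroup.of (a + i)) (bb A a O s) =
      (A : R) • ((1 - (↑A⁻¹ : R) ^ 4) • bb A a O s + ((↑A⁻¹ : R) ^ 4) • bb A a O (flip i s)) := by
  unfold bb
  rw [act_of, map_smul, E_10 A, tog_sta hO hi hs, wtt_flip i hi s hs h h']
  · have hA : (A : R) * (↑A⁻¹ : R) = 1 := A.mul_inv
    generalize (↑A⁻¹ : R) = a' at *
    generalize (A : R) = x at *
    have e1 : x ^ (2 * (wtt s + 1)) = x ^ (2 * wtt s) * x ^ 2 := by ring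
    rw [e1]
    generalize x ^ (2 * wtt s) = y
    have e2 : x * a' ^ 4 * x ^ 2 = a' := by
      linear_combination (a' * (x * a') ^ 2 + a' * (x * a') + a') * hA
    have e3 : x * a' ^ 4 = a' ^ 3 := by linear_combination a' ^ 3 * hA
    linear_combination (norm := module) (-(y * e2)) • dl R (sta a O (flip i s)) +
      (y * e3) • dl R (sta a O s)
  · rw [mem_sta_in hO s (by omega), h]
  · rw [add_assoc, mem_sta_in hO s (by omega), h']
    simp

theorem act_bb_01 {i s : ℕ} (hi : i < 4) (hs : s < 32) (h : s.testBit i = false)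
    (h' : s.testBit (i + 1) = true) :
    act A (FreeGroup.of (a + i)) (bb A a O s) = (A : R) • bb A a O (flip i s) := by
  unfold bb
  rw [act_of, map_smul, E_01 A, tog_sta hO hi hs, wtt_flip' i hi s hs h h']
  · have hA : (A : R) * (↑A⁻¹ : R) = 1 := A.mul_inv
    generalize (↑A⁻¹ : R) = a' at *
    generalize (A : R) = x at *
    have e1 : x ^ (2 * (wtt (flip i s) + 1)) = x ^ (2 * wtt (flip i s)) * x ^ 2 := by ring
    rw [e1]
    generalize x ^ (2 * wtt (flip i s)) = y
    linear_combination (norm := module) (y * x * hA) • dl R (sta a O (flip i s)) -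
      (y * x ^ 3 * hA) • dl R (sta a O s)
  · rw [mem_sta_in hO s (by omega), h]
    simp
  · rw [add_assoc, mem_sta_in hO s (by omega), h']

theorem actinv_bb_eq {i s : ℕ} (hi : i < 4) (h : s.testBit i = s.testBit (i + 1)) :
    act A (FreeGroup.of (a + i))⁻¹ (bb A a O s) =
      ((A : R) ^ 3) • (((↑A⁻¹ : R) ^ 4) • bb A a O s) := by
  unfold bb
  rw [act_of_inv, map_smul, E_eq A, smul_zero, smul_zero, add_zero]
  · have hA : (A : R) * (↑A⁻¹ : R) = 1 := A.mul_inv
    generalize (↑A⁻¹ : R) = a' at *
    generalize (A : R) = x at *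
    generalize x ^ (2 * wtt s) = y
    have e2 : x ^ 3 * a' ^ 4 = a' := by
      linear_combination (a' * (x * a') ^ 2 + a' * (x * a') + a') * hA
    linear_combination (norm := module) (-(y * e2)) • dl R (sta a O s)
  · rw [mem_sta_in hO s (by omega), add_assoc, mem_sta_in hO s (by omega), h]

theorem actinv_bb_10 {i s : ℕ} (hi : i < 4) (hs : s < 32) (h : s.testBit i = true)
    (h' : s.testBit (i + 1) = false) :
    act A (FreeGroup.of (a + i))⁻¹ (bb A a O s) =
      ((A : R) ^ 3) • (((↑A⁻¹ : R) ^ 4) • bb A a O (flip i s)) := by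
  unfold bb
  rw [act_of_inv, map_smul, E_10 A, tog_sta hO hi hs, wtt_flip i hi s hs h h']
  · have hA : (A : R) * (↑A⁻¹ : R) = 1 := A.mul_inv
    generalize (↑A⁻¹ : R) = a' at *
    generalize (A : R) = x at *
    have e1 : x ^ (2 * (wtt s + 1)) = x ^ (2 * wtt s) * x ^ 2 := by ring
    rw [e1]
    generalize x ^ (2 * wtt s) = y
    have e2 : x ^ 3 * a' ^ 4 * x ^ 2 = x := by
      linear_combination (x * (x * a') ^ 3 + x * (x * a') ^ 2 + x * (x * a') + x) * hA
    have e3 : x * a' ^ 2 = a' := by linear_combination a' * hA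
    linear_combination (norm := module) (-(y * e2)) • dl R (sta a O (flip i s)) -
      (y * e3) • dl R (sta a O s)
  · rw [mem_sta_in hO s (by omega), h]
  · rw [add_assoc, mem_sta_in hO s (by omega), h']
    simp

theorem actinv_bb_01 {i s : ℕ} (hi : i < 4) (hs : s < 32) (h : s.testBit i = false)
    (h' : s.testBit (i + 1) = true) :
    act A (FreeGroup.of (a + i))⁻¹ (bb A a O s) =
      ((A : R) ^ 3) • (bb A a O (flip i s) + ((↑A⁻¹ : R) ^ 4 - 1) • bb A a O s) := by
  unfold bb
  rw [act_of_inv, map_smul, E_01 A, tog_sta hO hi hs, wtt_flip' i hi s hs h h']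
  · have hA : (A : R) * (↑A⁻¹ : R) = 1 := A.mul_inv
    generalize (↑A⁻¹ : R) = a' at *
    generalize (A : R) = x at *
    have e1 : x ^ (2 * (wtt (flip i s) + 1)) = x ^ (2 * wtt (flip i s)) * x ^ 2 := by ring
    rw [e1]
    generalize x ^ (2 * wtt (flip i s)) = y
    have e2 : x ^ 3 * a' ^ 4 = a' := by
      linear_combination (a' * (x * a') ^ 2 + a' * (x * a') + a') * hA
    linear_combination (norm := module) (-(y * x ^ 2 * e2)) • dl R (sta a O s)
  · rw [mem_sta_in hO s (by omega), h]
    simp
  · rw [add_assoc, mem_sta_in hO s (by omega), h']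

omit hO

/-- the vector given by a sparse vector -/
noncomputable def val (a : ℕ) (O : Finset ℕ) (v : Vec) : T R :=
  (v.map fun x => ev A x.2 • bb A a O x.1).sum

theorem val_addTo (s : ℕ) (p : List ℤ) : ∀ v : Vec,
    val A a O (addTo s p v) = ev A p • bb A a O s + val A a O v
  | [] => by simp [addTo, val]
  | (s', q) :: v => by
    have ih := val_addTo s p v
    simp only [val] at ih ⊢
    by_cases h : s = s'
    · subst h
      simp only [addTo, if_pos, List.map_cons, List.sum_cons, ev_padd]
      module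
    · simp only [addTo, if_neg h, List.map_cons, List.sum_cons, ih]
      abel

theorem lt_addTo {s : ℕ} {p : List ℤ} (hs : s < 32) : ∀ {v : Vec}, (∀ x ∈ v, x.1 < 32) →
    ∀ x ∈ addTo s p v, x.1 < 32
  | [], _ => by
    intro x hx
    simp only [addTo, List.mem_singleton] at hx
    rw [hx]; exact hs
  | (s', q) :: v, hv => by
    intro x hx
    by_cases h : s = s'
    · simp only [addTo, if_pos h, List.mem_cons] at hx
      rcases hx with hx | hx
      · rw [hx]; exact hv (s', q) (by simp)
      · exact hv x (by simp [hx])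
    · simp only [addTo, if_neg h, List.mem_cons] at hx
      rcases hx with hx | hx
      · rw [hx]; exact hv (s', q) (by simp)
      · exact lt_addTo hs (fun y hy => hv y (by simp [hy])) x hx

theorem lt_stepP {i : ℕ} (hi : i < 4) : ∀ {v : Vec}, (∀ x ∈ v, x.1 < 32) →
    ∀ x ∈ stepP i v, x.1 < 32
  | [], _ => by simp [stepP]
  | (s, p) :: v, hv => by
    have hs : s < 32 := hv (s, p) (by simp)
    have ih := lt_stepP hi (v := v) (fun y hy => hv y (by simp [hy]))
    unfold stepP
    split_ifs
    · exact lt_addTo hs ih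
    · exact lt_addTo hs (lt_addTo (flip_lt i hi s hs) ih)
    · exact lt_addTo (flip_lt i hi s hs) ih
    · exact lt_addTo hs ih

theorem lt_stepN {i : ℕ} (hi : i < 4) : ∀ {v : Vec}, (∀ x ∈ v, x.1 < 32) →
    ∀ x ∈ stepN i v, x.1 < 32
  | [], _ => by simp [stepN]
  | (s, p) :: v, hv => by
    have hs : s < 32 := hv (s, p) (by simp)
    have ih := lt_stepN hi (v := v) (fun y hy => hv y (by simp [hy]))
    unfold stepN
    split_ifs
    · exact lt_addTo hs ih
    · exact lt_addTo (flip_lt i hi s hs) ih
    · exact lt_addTo (flip_lt i hi s hs) (lt_addTo hs ih)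
    · exact lt_addTo hs ih

include hO

theorem act_stepP {i : ℕ} (hi : i < 4) : ∀ {v : Vec}, (∀ x ∈ v, x.1 < 32) →
    act A (FreeGroup.of (a + i)) (val A a O v) = (A : R) • val A a O (stepP i v)
  | [], _ => by simp [stepP, val]
  | (s, p) :: v, hv => by
    have hs : s < 32 := hv (s, p) (by simp)
    have ih := act_stepP hi (v := v) (fun y hy => hv y (by simp [hy]))
    have e1 : val A a O ((s, p) :: v) = ev A p • bb A a O s + val A a O v := by simp [val]
    rw [e1, map_add, map_smul, ih]
    cases h : s.testBit i <;> cases h' : s.testBit (i + 1)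
    · rw [act_bb_eq A hO hi (h.trans h'.symm)]
      simp only [stepP, h, h']
      simp [val_addTo]
      module
    · rw [act_bb_01 A hO hi hs h h']
      simp only [stepP, h, h']
      simp [val_addTo]
      module
    · rw [act_bb_10 A hO hi hs h h']
      simp only [stepP, h, h']
      simp [val_addTo, ev_padd, ev_neg, ev_shift]
      module
    · rw [act_bb_eq A hO hi (h.trans h'.symm)]
      simp only [stepP, h, h']
      simp [val_addTo]
      module

theorem act_stepN {i : ℕ} (hi : i < 4) : ∀ {v : Vec}, (∀ x ∈ v, x.1 < 32) →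
    act A (FreeGroup.of (a + i))⁻¹ (val A a O v) = ((A : R) ^ 3) • val A a O (stepN i v)
  | [], _ => by simp [stepN, val]
  | (s, p) :: v, hv => by
    have hs : s < 32 := hv (s, p) (by simp)
    have ih := act_stepN hi (v := v) (fun y hy => hv y (by simp [hy]))
    have e1 : val A a O ((s, p) :: v) = ev A p • bb A a O s + val A a O v := by simp [val]
    rw [e1, map_add, map_smul, ih]
    cases h : s.testBit i <;> cases h' : s.testBit (i + 1)
    · rw [actinv_bb_eq A hO hi (h.trans h'.symm)]
      simp only [stepN, h, h']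
      simp [val_addTo, ev_shift]
      module
    · rw [actinv_bb_01 A hO hi hs h h']
      simp only [stepN, h, h']
      simp [val_addTo, ev_padd, ev_neg, ev_shift]
      module
    · rw [actinv_bb_10 A hO hi hs h h']
      simp only [stepN, h, h']
      simp [val_addTo, ev_shift]
      module
    · rw [actinv_bb_eq A hO hi (h.trans h'.symm)]
      simp only [stepN, h, h']
      simp [val_addTo, ev_shift]
      module

omit hO

/-- the word, with the generators shifted by `a` -/
def wordOf (a : ℕ) : List (ℕ × Bool) → FreeGroup ℕ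
  | [] => 1
  | (i, e) :: w => (if e then FreeGroup.of (a + i) else (FreeGroup.of (a + i))⁻¹) * wordOf a w

/-- the scalar of a word -/
def scal : List (ℕ × Bool) → ℕ
  | [] => 0
  | (_, e) :: w => (if e then 1 else 3) + scal w

theorem lt_run : ∀ {w : List (ℕ × Bool)}, (∀ x ∈ w, x.1 < 4) → ∀ {v : Vec},
    (∀ x ∈ v, x.1 < 32) → ∀ x ∈ run w v, x.1 < 32
  | [], _, v, hv => by simpa [run] using hv
  | (i, e) :: w, hw, v, hv => by
    have hi : i < 4 := hw (i, e) (by simp)
    have ih := lt_run (w := w) (fun y hy => hw y (by simp [hy])) hv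
    unfold run
    cases e
    · simpa using lt_stepN hi ih
    · simpa using lt_stepP hi ih

include hO

theorem act_run : ∀ {w : List (ℕ × Bool)}, (∀ x ∈ w, x.1 < 4) → ∀ {v : Vec},
    (∀ x ∈ v, x.1 < 32) →
    act A (wordOf a w) (val A a O v) = ((A : R) ^ scal w) • val A a O (run w v)
  | [], _, v, hv => by simp [wordOf, run, scal, act_one]
  | (i, e) :: w, hw, v, hv => by
    have hi : i < 4 := hw (i, e) (by simp)
    have hw' : ∀ x ∈ w, x.1 < 4 := fun y hy => hw y (by simp [hy])
    have ih := act_run (w := w) hw' hv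
    have hl := lt_run hw' hv
    unfold wordOf run scal
    cases e
    · simp only [Bool.false_eq_true, if_false]
      rw [act_mul, ih, map_smul, act_stepN A hO hi hl, smul_smul]
      congr 1
      ring
    · simp only [if_true]
      rw [act_mul, ih, map_smul, act_stepP A hO hi hl, smul_smul]
      congr 1
      ring

end

end Pool.Agent.W_89ccdb_h28
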