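import Pool.Agent.W_89ccdb_h28.Main

namespace Pool.Agent.W_89ccdb_h28

open Polynomial

/-- the polynomial with given coefficients -/
noncomputable def toPoly : List ℤ → ℚ[X]
  | [] => 0
  | c :: p => C (c : ℚ) + X * toPoly p

theorem ev_eq_aeval (A : ℂˣ) : ∀ p : List ℤ, ev A p = aeval (((A⁻¹ : ℂˣ) : ℂ) ^ 4) (toPoly p)
  | [] => by simp [ev, toPoly]
  | c :: p => by
    simp only [ev, toPoly, ev_eq_aeval A p, map_add, map_mul, aeval_X, aeval_C]
    simp

theorem isZero_of_toPoly : ∀ {p : List ℤ}, toPoly p = 0 → isZero p = true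
  | [], _ => rfl
  | c :: p, h => by
    have h0 : (toPoly (c :: p)).coeff 0 = 0 := by rw [h, coeff_zero]
    have hc : (c : ℚ) = 0 := by simpa [toPoly] using h0
    have hc' : c = 0 := by exact_mod_cast hc
    have h1 : X * toPoly p = 0 := by
      have : toPoly (c :: p) = X * toPoly p := by simp [toPoly, hc']
      rw [← this, h]
    have h2 : toPoly p = 0 := by simpa using h1
    have h3 := isZero_of_toPoly h2
    unfold isZero at h3 ⊢
    rw [List.all_cons, h3, hc']
    rfl

theorem ev_inj (A : ℂˣ) (hA : Transcendental ℚ (A : ℂ)) (p : List ℤ) (h : ev A p = 0) :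
    isZero p = true := by
  have ht : Transcendental ℚ (((A⁻¹ : ℂˣ) : ℂ) ^ 4) := by
    intro h1
    have h2 := h1.of_pow (by norm_num)
    rw [Units.val_inv_eq_inv_val] at h2
    exact hA (IsAlgebraic.inv_iff.1 h2)
  rw [ev_eq_aeval] at h
  exact isZero_of_toPoly ((transcendental_iff.1 ht) _ h)

end Pool.Agent.W_89ccdb_h28
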